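import Pool.Agent.Confl.Q.Mild
import Pool.Agent.Confl.O.Check
import Pool.Agent.Confl.X.Seven

/-!
# Rules for adjacency depending on the order
-/

set_option autoImplicit false

namespace Pool.Agent.Confl

variable {V : Type}

open Cert4

/-- Rules for adjacency: two different vertices adjacent to a triangle are adjacent; two different
vertices adjacent to all vertices of a path on four vertices are adjacent if the six points appear
in one of two cyclic orders or the ends of the path are adjacent; a vertex `w` adjacent to two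
vertices of a `K₄` and to a vertex `v` adjacent to the other two is adjacent to all of it. -/
structure HornO (G : SimpleGraph V) (x : V → ℝ) : Prop where
  k5 : ∀ a b c d e, d ≠ e → G.Adj a b → G.Adj a c → G.Adj b c → G.Adj d a → G.Adj d b →
    G.Adj d c → G.Adj e a → G.Adj e b → G.Adj e c → G.Adj d e
  pt : ∀ p q a b c d, Pat G p q a b c d → (C6 x p a b q d c ∨ C6 x c p q b a d) → G.Adj p q
  oc : ∀ p q a b c d, Pat G p q a b c d → G.Adj a d → G.Adj p q
  cp : ∀ a b c d v w, v ≠ c → v ≠ d → w ≠ a → w ≠ b → K4 G a b c d → G.Adj v a → G.Adj v b →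
    G.Adj w c → G.Adj w d → G.Adj v w → G.Adj w a

/-- There is no induced octahedron: if two vertices `p ≠ q` are adjacent to the vertices of a cycle
`a b c d`, then `p`, `q` are adjacent or the cycle has a chord. -/
def OctFree (G : SimpleGraph V) : Prop :=
  ∀ p q a b c d, p ≠ q → a ≠ c → b ≠ d → G.Adj p a → G.Adj p b → G.Adj p c → G.Adj p d →
    G.Adj q a → G.Adj q b → G.Adj q c → G.Adj q d → G.Adj a b → G.Adj b c → G.Adj c d →
    G.Adj a d → G.Adj p q ∨ G.Adj a c ∨ G.Adj b d

/-- The pattern `P`: the distinct vertices `v 0, …, v 5` appear in this cyclic order, in one of the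
two directions, the vertices `v 1`, `v 2` are not adjacent and both adjacent to the other four,
which induce the path `v 4, v 3, v 0, v 5`. -/
def PatP (G : SimpleGraph V) (x : V → ℝ) (v : Fin 6 → V) : Prop :=
  Function.Injective v ∧
  (∀ i j k l : Fin 6, i < j → j < k → k < l →
    (Btw x (v i) (v k) (v j) ↔ ¬ Btw x (v i) (v k) (v l))) ∧
  G.Adj (v 1) (v 0) ∧ G.Adj (v 1) (v 3) ∧ G.Adj (v 1) (v 4) ∧ G.Adj (v 1) (v 5) ∧
  G.Adj (v 2) (v 0) ∧ G.Adj (v 2) (v 3) ∧ G.Adj (v 2) (v 4) ∧ G.Adj (v 2) (v 5) ∧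
  G.Adj (v 4) (v 3) ∧ G.Adj (v 3) (v 0) ∧ G.Adj (v 0) (v 5) ∧
  ¬ G.Adj (v 1) (v 2) ∧ ¬ G.Adj (v 4) (v 0) ∧ ¬ G.Adj (v 3) (v 5) ∧ ¬ G.Adj (v 4) (v 5)

theorem cyc_of_C6 {x : V → ℝ} (hx : Function.Injective x) {a b c d e f : V}
    (h : C6 x a b c d e f) : Function.Injective ![a, b, c, d, e, f] ∧
    ∀ i j k l : Fin 6, i < j → j < k → k < l →
      (Btw x (![a, b, c, d, e, f] i) (![a, b, c, d, e, f] k) (![a, b, c, d, e, f] j) ↔
        ¬ Btw x (![a, b, c, d, e, f] i) (![a, b, c, d, e, f] k) (![a, b, c, d, e, f] l)) := by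
  have alt_iff : ∀ {p q r s : V}, Alt x p q r s → (Btw x p q r ↔ ¬ Btw x p q s) := by
    intro p q r s h
    rcases h with ⟨h1, h2, -⟩ | ⟨h1, h2, -⟩
    · exact ⟨fun _ => h2, fun _ => h1⟩
    · exact ⟨fun h3 => absurd h3 h2, fun h3 => absurd h1 h3⟩
  obtain ⟨h1, h2, h3, h4, h5, h6, h7, h8, h9, h10, h11, h12, h13, h14, h15⟩ := h
  constructor
  · have n1 := alt_ne hx h1
    have n2 := alt_ne hx h2
    have n3 := alt_ne hx h3
    have n4 := alt_ne hx h4
    have n5 := alt_ne hx h5
    have n6 := alt_ne hx h6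
    have n7 := alt_ne hx h7
    have n8 := alt_ne hx h8
    have n9 := alt_ne hx h9
    have n10 := alt_ne hx h10
    have n11 := alt_ne hx h11
    have n12 := alt_ne hx h12
    have n13 := alt_ne hx h13
    have n14 := alt_ne hx h14
    have n15 := alt_ne hx h15
    have key : ∀ i j : Fin 6, i < j →
        ![a, b, c, d, e, f] i ≠ ![a, b, c, d, e, f] j := by
      intro i j hij
      obtain ⟨a1, a2, a3, a4⟩ := n1
      obtain ⟨b1, b2, b3, b4⟩ := n2
      obtain ⟨c1, c2, c3, c4⟩ := n3
      obtain ⟨d1, d2, d3, d4⟩ := n4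
      obtain ⟨e1, e2, e3, e4⟩ := n5
      obtain ⟨f1, f2, f3, f4⟩ := n6
      obtain ⟨g1, g2, g3, g4⟩ := n7
      obtain ⟨i1, i2, i3, i4⟩ := n8
      obtain ⟨j1, j2, j3, j4⟩ := n9
      obtain ⟨k1, k2, k3, k4⟩ := n10
      obtain ⟨l1, l2, l3, l4⟩ := n11
      obtain ⟨m1, m2, m3, m4⟩ := n12
      obtain ⟨o1, o2, o3, o4⟩ := n13
      obtain ⟨p1, p2, p3, p4⟩ := n14
      obtain ⟨q1, q2, q3, q4⟩ := n15
      fin_cases i <;> fin_cases j <;> first
        | exact absurd hij (by decide)
        | assumption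
        | (refine Ne.symm ?_; assumption)
    intro i j h
    by_contra hne
    rcases lt_or_gt_of_ne hne with h1 | h1
    · exact key i j h1 h
    · exact key j i h1 h.symm
  · intro i j k l hij hjk hkl
    fin_cases i <;> fin_cases j <;> first
      | exact absurd hij (by decide)
      | (fin_cases k <;> first
          | exact absurd hjk (by decide)
          | (fin_cases l <;> first
              | exact absurd hkl (by decide)
              | exact alt_iff (by assumption)))

theorem hornO {G : SimpleGraph V} {x : V → ℝ} (hx : Function.Injective x) (hA : NoK5e G)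
    (hB : OctFree G) (hC : CoFree G) (hP : ∀ v, ¬ PatP G x v) (hX : ∀ v, ¬ PatX G x v) :
    HornO G x := by
  have hoc : ∀ p q a b c d, Pat G p q a b c d → G.Adj a d → G.Adj p q := by
    intro p q a b c d ⟨hpq, hac, had, hbd, pa, pb, pc, pd, qa, qb, qc, qd, ab, bc, cd⟩ ad
    rcases hB p q a b c d hpq hac hbd pa pb pc pd qa qb qc qd ab bc cd ad with e | e | e
    · exact e
    · exact hA a b c p q hpq ab e bc pa pb pc qa qb qc
    · exact hA b c d p q hpq bc e cd pb pc pd qb qc qd
  refine ⟨hA, ?_, hoc, ?_⟩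
  · intro p q a b c d hpat hord
    by_contra hn
    have nad : ¬ G.Adj a d := fun e => hn (hoc p q a b c d hpat e)
    obtain ⟨hpq, hac, had, hbd, pa, pb, pc, pd, qa, qb, qc, qd, ab, bc, cd⟩ := hpat
    have nac : ¬ G.Adj a c := fun e => hn (hA a b c p q hpq ab e bc pa pb pc qa qb qc)
    have nbd : ¬ G.Adj b d := fun e => hn (hA b c d p q hpq bc e cd pb pc pd qb qc qd)
    rcases hord with hord | hord
    · obtain ⟨h1, h2⟩ := cyc_of_C6 hx hord
      exact hX ![p, a, b, q, d, c] ⟨h1, h2, qa.symm, pd, bc, hn, nad, nac, nbd⟩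
    · obtain ⟨h1, h2⟩ := cyc_of_C6 hx hord
      exact hP ![c, p, q, b, a, d] ⟨h1, h2, pc, pb, pa, pd, qc, qb, qa, qd, ab, bc, cd, hn, nac,
        nbd, nad⟩
  · intro a b c d v w hvc hvd hwa hwb K va vb wc wd vw
    obtain ⟨ab, ac, ad, bc, bd, cd⟩ := K
    rcases hC a b c d v w hvc hvd hwa hwb ⟨ab, ac, ad, bc, bd, cd⟩ va vb wc wd vw with
      e | e | e | e
    · exact e
    · exact hA b c d w a hwa bc bd cd e wc wd ab ac ad
    · have vd : G.Adj v d := hA a b c v d hvd ab ac bc va vb e ad.symm bd.symm cd.symm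
      exact hA c d v w a hwa cd e.symm vd.symm wc wd vw.symm ac ad va.symm
    · have vc : G.Adj v c := hA a b d v c hvc ab ad bd va vb e ac.symm bc.symm cd
      exact hA c d v w a hwa cd vc.symm e.symm wc wd vw.symm ac ad va.symm

end Pool.Agent.Confl
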