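import Pool.Agent.Confl.O.Rules

/-!
# A certificate
-/

set_option autoImplicit false

namespace Pool.Agent.Confl.Cert4

/-- Part of a certificate. -/
def t00_0 : Tr :=
    (.cmp 2 (.cmp 4 (.cmp 0 .mn (.ru 18 (.k5 0 1 3 6 5 (.rf 6))) (.gap (.ru 14 (.ru 18 (.lc 7 6
    4 5 (.rf 6) (.pt 5 6 7 1 3 0 (.rf 6))))))) (.ru 18 (.pt 5 6 4 1 3 0 (.rf 6))) (.cmp 1 (.gap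
    (.ru 14 (.ru 18 (.lc 7 6 1 5 (.rf 6) (.pt 5 6 7 1 3 0 (.rf 6)))))) (.ru 18 (.eq 1 1)) (.gap
    (.ru 14 (.ru 18 (.cmp 2 (.cmp 1 (.cmp 4 (.cmp 0 .mn (.ru 16 (.lc 0 7 4 2 (.k5 0 2 6 4 7 (.k5
    7 2 6 0 1 (.k5 7 2 6 4 1 (.oc 4 3 5 0 6 1 (.oc 6 5 1 0 4 3 (.rf 6)))))) (.rf 24))) (.gap
    (.ru 15 (.ru 16 (.lc 8 7 4 5 (.lc 8 2 7 5 (.oc 0 1 5 2 6 3 (.oc 2 3 5 0 6 1 (.oc 6 5 2 0 1 3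
    (.rf 6)))) (.pt 2 5 4 8 7 1 (.oc 6 5 3 0 2 1 (.rf 6)))) (.rf 24)))))) (.rf 22) (.gap (.rf
    22))) (.rf 1) (.cmp 7 (.gap (.rf 1)) (.rf 1) (.gap (.rf 1)))) (.rf 1) (.cmp 5 (.cmp 6 (.gap
    (.rf 1)) (.rf 1) (.gap (.rf 1))) (.rf 1) (.cmp 3 (.gap (.rf 1)) (.rf 1) (.gap (.rf
    26)))))))))) (.cmp 2 (.cmp 4 (.cmp 0 .mn (.rf 24) (.gap (.ru 15 (.ru 17 (.lc 0 5 8 3 (.lc 8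
    2 4 5 (.oc 0 1 5 2 6 3 (.pt 6 8 3 0 2 4 (.pt 5 8 3 0 2 4 (.oc 6 5 1 0 8 2 (.rf 6))))) (.rf
    24)) (.rf 24)))))) (.rf 22) (.cmp 1 (.gap (.rf 22)) (.rf 1) (.gap (.rf 1)))) (.rf 1) (.cmp 5
    (.cmp 6 (.gap (.rf 1)) (.rf 1) (.gap (.rf 1))) (.rf 1) (.cmp 3 (.gap (.rf 1)) (.rf 1) (.gap
    (.rf 4))))) (.cmp 5 (.cmp 6 (.gap (.cmp 7 (.cmp 1 (.cmp 4 (.cmp 0 .mn (.rf 5) (.gap (.ru 16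
    (.lc 8 7 4 5 (.lc 2 6 7 5 (.rf 6) (.oc 0 1 5 2 6 3 (.oc 2 3 5 0 6 1 (.oc 6 5 2 0 1 3 (.rf
    6))))) (.rf 24))))) (.rf 22) (.gap (.rf 22))) (.rf 1) (.cmp 2 (.gap (.rf 1)) (.rf 1) (.gap
    (.rf 1)))) (.rf 1) (.cmp 5 (.cmp 6 (.gap (.rf 1)) (.rf 1) (.gap (.rf 1))) (.rf 1) (.cmp 3
    (.gap (.rf 1)) (.rf 1) (.gap (.rf 4)))))) (.cmp 2 (.cmp 4 (.cmp 0 .mn (.rf 5) (.gap (.ru 15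
    (.ru 16 (.ru 17 (.lc 0 5 8 3 (.k5 0 8 6 2 3 (.k5 2 6 3 0 1 (.k5 2 6 3 8 1 (.cp 0 1 2 6 5 4
    (.cp 8 1 0 2 6 4 (.cp 8 2 0 4 1 5 (.cp 6 0 8 4 1 5 (.rf 6)))))))) (.rf 24))))))) (.rf 22)
    (.cmp 1 (.gap (.rf 22)) (.rf 1) (.gap (.rf 1)))) (.rf 1) (.cmp 5 (.cmp 6 (.gap (.rf 1)) (.rf
    1) (.gap (.rf 1))) (.rf 1) (.cmp 3 (.gap (.rf 1)) (.rf 1) (.gap (.rf 4))))) (.gap (.ru 14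
    (.ru 18 (.lc 0 2 1 7 (.k5 0 1 3 6 5 (.rf 6)) (.pt 0 1 7 6 3 5 (.cp 0 1 2 6 5 4 (.cp 4 0 2 6
    5 1 (.cp 4 1 0 6 5 3 (.cp 2 0 4 1 6 3 (.cp 2 0 4 1 3 5 (.cp 6 0 4 1 2 5 (.rf 6)))))))))))))
    (.ru 14 (.rf 6)) (.cmp 3 (.gap (.ru 14 (.ru 18 (.lc 0 5 6 7 (.lc 0 2 1 7 (.k5 0 1 3 6 5 (.rf
    6)) (.oc 6 5 3 0 7 1 (.rf 6))) (.rf 6))))) (.cmp 2 (.cmp 4 (.cmp 0 .mn (.rf 1) (.gap (.rf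
    1))) (.rf 1) (.cmp 1 (.gap (.rf 1)) (.rf 1) (.gap (.rf 1)))) (.rf 1) (.cmp 5 (.cmp 6 (.gap
    (.rf 1)) (.rf 1) (.gap (.rf 1))) (.rf 1) (.cmp 3 (.gap (.rf 1)) (.rf 1) (.gap (.rf 1)))))
    (.gap (.ru 14 (.ru 18 (.lc 0 5 6 7 (.lc 0 2 1 7 (.k5 0 1 3 6 5 (.rf 6)) (.oc 6 5 7 0 3 1
    (.rf 6))) (.rf 6))))))))

/-- Part of a certificate. -/
def t00_1 : Tr :=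
    (.cmp 3 (.cmp 5 (.gap (.ru 12 (.ru 13 (.lc 0 5 6 3 (.lc 0 6 4 5 (.rf 6) (.lc 0 6 1 5 (.rf 6)
    t00_0)) (.rf 6))))) (.rf 7) (.gap (.ru 12 (.ru 13 (.lc 0 5 2 6 (.rf 6) (.lc 4 5 2 6 (.rf 6)
    (.lc 1 5 2 6 (.rf 6) (.cmp 2 (.cmp 4 (.cmp 0 .mn (.ru 18 (.k5 0 1 2 5 6 (.rf 6))) (.gap (.ru
    14 (.ru 18 (.lc 0 5 7 6 (.rf 6) (.lc 7 1 4 2 (.oc 5 6 1 7 4 2 (.rf 6)) (.k5 7 1 2 5 6 (.rf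
    6)))))))) (.ru 18 (.k5 4 1 2 5 6 (.rf 6))) (.cmp 1 (.gap (.ru 14 (.ru 18 (.lc 0 5 7 6 (.rf
    6) (.lc 0 2 7 5 (.oc 0 1 6 7 5 2 (.oc 7 2 6 0 5 1 (.oc 5 6 1 0 7 2 (.rf 6)))) (.k5 7 1 2 5 6
    (.rf 6))))))) (.ru 18 (.eq 1 1)) (.gap (.ru 14 (.ru 18 (.lc 0 5 7 6 (.rf 6) (.lc 0 2 7 5
    (.oc 0 1 6 7 5 2 (.oc 7 2 6 0 5 1 (.oc 5 6 7 0 1 2 (.rf 6)))) (.k5 1 7 2 5 6 (.rf 6)))))))))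
    (.cmp 2 (.cmp 4 (.cmp 0 .mn (.rf 24) (.gap (.ru 17 (.lc 0 5 8 3 (.oc 0 1 6 2 5 3 (.oc 2 3 6
    0 5 1 (.oc 5 6 2 0 1 3 (.rf 6)))) (.rf 24))))) (.rf 22) (.cmp 1 (.gap (.rf 22)) (.rf 1)
    (.gap (.rf 1)))) (.rf 1) (.cmp 6 (.cmp 5 (.gap (.rf 1)) (.rf 1) (.gap (.rf 1))) (.rf 1)
    (.cmp 3 (.gap (.rf 1)) (.rf 1) (.gap (.rf 4))))) (.cmp 6 (.cmp 5 (.gap (.ru 14 (.ru 18 (.lc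
    0 5 7 6 (.rf 6) (.lc 0 2 1 7 (.k5 0 1 2 5 6 (.rf 6)) (.oc 0 1 6 2 5 7 (.oc 2 7 6 0 5 1 (.oc
    5 6 2 0 1 7 (.rf 6))))))))) (.ru 14 (.rf 6)) (.gap (.ru 14 (.ru 18 (.lc 0 2 1 7 (.k5 0 1 2 5
    6 (.rf 6)) (.pt 0 1 5 2 6 7 (.cp 0 1 2 5 6 4 (.cp 4 0 2 5 6 1 (.cp 5 0 4 1 2 6 (.rf
    6)))))))))) (.cmp 2 (.cmp 4 (.cmp 0 .mn (.rf 5) (.gap (.rf 27))) (.rf 27) (.cmp 1 (.gap (.rf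
    29)) (.rf 1) (.gap (.rf 1)))) (.rf 1) (.cmp 6 (.cmp 5 (.gap (.rf 1)) (.rf 1) (.gap (.rf 1)))
    (.rf 1) (.cmp 3 (.gap (.rf 1)) (.rf 1) (.gap (.rf 4))))) (.cmp 3 (.gap (.cmp 5 (.cmp 1 (.cmp
    4 (.cmp 0 .mn (.rf 5) (.gap (.rf 27))) (.rf 27) (.gap (.rf 29))) (.rf 1) (.cmp 2 (.gap (.rf
    1)) (.rf 1) (.gap (.rf 1)))) (.rf 1) (.cmp 7 (.cmp 6 (.gap (.rf 1)) (.rf 1) (.gap (.rf 1)))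
    (.rf 1) (.cmp 3 (.gap (.rf 1)) (.rf 1) (.gap (.rf 4)))))) (.cmp 2 (.cmp 4 (.cmp 0 .mn (.rf
    1) (.gap (.rf 1))) (.rf 1) (.cmp 1 (.gap (.rf 1)) (.rf 1) (.gap (.rf 1)))) (.rf 1) (.cmp 6
    (.cmp 5 (.gap (.rf 1)) (.rf 1) (.gap (.rf 1))) (.rf 1) (.cmp 3 (.gap (.rf 1)) (.rf 1) (.gap
    (.rf 1))))) (.gap (.cmp 5 (.cmp 1 (.cmp 4 (.cmp 0 .mn (.rf 1) (.gap (.rf 1))) (.rf 1) (.gap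
    (.rf 1))) (.rf 1) (.cmp 2 (.gap (.rf 26)) (.rf 5) (.gap (.rf 4)))) (.rf 4) (.cmp 3 (.cmp 6
    (.gap (.rf 4)) (.rf 4) (.gap (.rf 4))) (.rf 1) (.cmp 7 (.gap (.rf 1)) (.rf 1) (.gap (.rf
    1)))))))))))))))) (.ru 13 (.lc 0 5 2 3 (.rf 6) (.lc 4 5 1 3 (.rf 6) (.cmp 2 (.cmp 4 (.cmp 0
    .mn (.ru 18 (.k5 0 1 2 5 3 (.rf 6))) (.gap (.ru 14 (.ru 18 (.lc 0 5 7 3 (.rf 6) (.lc 7 1 4 2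
    (.oc 5 3 1 7 4 2 (.rf 6)) (.k5 7 1 2 5 3 (.rf 6)))))))) (.ru 18 (.k5 4 1 2 5 3 (.rf 6)))
    (.cmp 1 (.gap (.ru 14 (.ru 18 (.lc 0 5 7 3 (.rf 6) (.lc 0 2 7 5 (.oc 0 1 3 7 5 2 (.oc 7 2 3
    0 5 1 (.oc 5 3 1 0 7 2 (.rf 6)))) (.k5 7 1 2 5 3 (.rf 6))))))) (.ru 18 (.eq 1 1)) (.gap (.ru
    14 (.ru 18 (.lc 0 5 7 3 (.rf 6) (.lc 0 2 7 5 (.oc 0 1 3 7 5 2 (.oc 7 2 3 0 5 1 (.oc 5 3 7 0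
    1 2 (.rf 6)))) (.k5 1 7 2 5 3 (.rf 6))))))))) (.cmp 2 (.cmp 4 (.cmp 0 .mn (.rf 24) (.gap
    (.ru 17 (.lc 0 5 8 3 (.rf 6) (.rf 24))))) (.rf 22) (.cmp 1 (.gap (.rf 22)) (.rf 1) (.gap
    (.rf 1)))) (.rf 1) (.cmp 3 (.cmp 5 (.gap (.rf 1)) (.rf 1) (.gap (.rf 1))) (.rf 1) (.gap (.rf
    4)))) (.cmp 3 (.cmp 5 (.gap (.ru 14 (.ru 18 (.lc 0 5 7 3 (.rf 6) (.lc 0 2 1 7 (.k5 0 1 2 5 3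
    (.rf 6)) (.oc 0 1 3 2 5 7 (.oc 2 7 3 0 5 1 (.oc 5 3 2 0 1 7 (.rf 6))))))))) (.ru 14 (.rf 6))
    (.gap (.ru 14 (.ru 18 (.lc 0 2 1 7 (.k5 0 1 2 5 3 (.rf 6)) (.pt 0 1 5 2 3 7 (.cp 0 1 2 5 3 4
    (.cp 4 0 2 5 3 1 (.cp 5 0 4 1 2 3 (.rf 6)))))))))) (.cmp 2 (.cmp 4 (.cmp 0 .mn (.rf 1) (.gap
    (.rf 1))) (.rf 1) (.cmp 1 (.gap (.rf 1)) (.rf 1) (.gap (.rf 1)))) (.rf 1) (.cmp 3 (.cmp 5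
    (.gap (.rf 1)) (.rf 1) (.gap (.rf 1))) (.rf 1) (.gap (.rf 1)))) (.gap (.cmp 2 (.cmp 4 (.cmp
    0 .mn (.rf 1) (.gap (.rf 1))) (.rf 1) (.cmp 1 (.gap (.rf 1)) (.rf 1) (.gap (.rf 26)))) (.rf
    5) (.cmp 3 (.cmp 5 (.gap (.rf 4)) (.rf 4) (.gap (.rf 4))) (.rf 1) (.cmp 7 (.gap (.rf 1))
    (.rf 1) (.gap (.rf 1))))))))))) (.gap (.ru 12 (.ru 13 (.lc 0 5 2 6 (.rf 6) (.lc 4 5 2 6 (.rf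
    6) (.lc 1 5 2 6 (.rf 6) (.pt 0 1 5 2 6 3 (.cp 0 1 2 5 6 4 (.cp 4 0 2 5 6 1 (.cp 5 0 4 1 2 6
    (.rf 6))))))))))))

/-- Part of a certificate. -/
def t00_2 : Tr :=
    (.cmp 5 (.gap (.ru 12 (.ru 13 (.lc 0 5 6 3 (.lc 0 6 1 5 (.rf 6) (.cmp 6 (.cmp 1 (.cmp 0 .mn
    (.ru 18 (.k5 0 1 3 6 5 (.rf 6))) (.gap (.ru 14 (.ru 18 (.lc 7 6 1 5 (.rf 6) (.pt 5 6 7 1 3 0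
    (.rf 6))))))) (.ru 18 (.eq 1 1)) (.cmp 2 (.gap (.ru 14 (.ru 18 (.cmp 2 (.cmp 1 (.cmp 0 .mn
    (.rf 19) (.gap (.ru 15 (.ru 16 (.ru 17 (.lc 0 5 8 3 (.lc 8 7 1 5 (.oc 0 1 3 8 2 6 (.pt 6 8 3
    0 2 1 (.pt 5 8 7 1 3 0 (.oc 6 5 1 0 8 7 (.rf 6))))) (.rf 19)) (.rf 19))))))) (.rf 1) (.cmp 7
    (.gap (.rf 1)) (.rf 1) (.gap (.rf 1)))) (.rf 1) (.cmp 5 (.cmp 6 (.gap (.rf 1)) (.rf 1) (.gap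
    (.rf 1))) (.rf 1) (.cmp 3 (.gap (.rf 1)) (.rf 1) (.gap (.rf 26)))))))) (.cmp 6 (.cmp 1 (.cmp
    0 .mn (.rf 19) (.gap (.ru 15 (.ru 17 (.lc 0 5 8 3 (.lc 8 2 1 5 (.oc 0 1 3 8 2 6 (.pt 6 8 3 0
    2 1 (.pt 5 8 3 0 2 1 (.oc 6 5 1 0 8 2 (.rf 6))))) (.rf 19)) (.rf 19)))))) (.rf 1) (.cmp 2
    (.gap (.rf 1)) (.rf 1) (.gap (.rf 1)))) (.rf 1) (.cmp 3 (.cmp 5 (.gap (.rf 1)) (.rf 1) (.gap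
    (.rf 1))) (.rf 1) (.gap (.rf 4)))) (.gap (.ru 18 (.cmp 7 (.cmp 1 (.cmp 0 .mn (.rf 5) (.gap
    (.ru 15 (.ru 17 (.lc 0 5 8 3 (.lc 8 2 1 5 (.oc 0 1 3 8 2 6 (.pt 6 8 3 0 2 1 (.pt 5 8 3 0 2 1
    (.oc 6 5 1 0 8 2 (.rf 6))))) (.rf 19)) (.rf 19)))))) (.rf 1) (.cmp 2 (.gap (.rf 1)) (.rf 1)
    (.gap (.rf 1)))) (.rf 1) (.cmp 5 (.cmp 6 (.gap (.rf 1)) (.rf 1) (.gap (.rf 1))) (.rf 1)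
    (.cmp 3 (.gap (.rf 1)) (.rf 1) (.gap (.rf 4))))))))) (.cmp 6 (.cmp 1 (.cmp 0 .mn (.rf 5)
    (.gap (.ru 15 (.ru 16 (.ru 17 (.lc 0 5 8 3 (.k5 0 8 6 2 3 (.k5 2 6 3 0 1 (.k5 2 6 3 8 1 (.cp
    8 2 0 1 3 5 (.cp 2 0 8 1 3 5 (.cp 6 0 8 1 2 5 (.rf 6))))))) (.rf 19))))))) (.rf 1) (.cmp 2
    (.gap (.rf 1)) (.rf 1) (.gap (.rf 1)))) (.rf 1) (.cmp 3 (.cmp 5 (.gap (.rf 1)) (.rf 1) (.gap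
    (.rf 1))) (.rf 1) (.gap (.rf 4)))) (.cmp 3 (.cmp 5 (.gap (.ru 14 (.ru 18 (.lc 0 2 1 7 (.k5 0
    1 3 6 5 (.rf 6)) (.pt 0 1 7 6 3 5 (.k5 0 1 3 6 5 (.rf 6))))))) (.ru 14 (.rf 6)) (.gap (.ru
    14 (.ru 18 (.lc 0 5 6 7 (.lc 0 2 1 7 (.k5 0 1 3 6 5 (.rf 6)) (.oc 6 5 3 0 7 1 (.rf 6))) (.rf
    6)))))) (.cmp 6 (.cmp 1 (.cmp 0 .mn (.rf 1) (.gap (.rf 1))) (.rf 1) (.cmp 2 (.gap (.rf 1))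
    (.rf 1) (.gap (.rf 1)))) (.rf 1) (.cmp 3 (.cmp 5 (.gap (.rf 1)) (.rf 1) (.gap (.rf 1))) (.rf
    1) (.gap (.rf 1)))) (.gap (.ru 14 (.ru 18 (.lc 0 5 6 7 (.lc 0 2 1 7 (.k5 0 1 3 6 5 (.rf 6))
    (.oc 6 5 7 0 3 1 (.rf 6))) (.rf 6)))))))) (.rf 6))))) (.rf 7) (.gap (.ru 12 (.ru 13 (.lc 0 5
    2 6 (.rf 6) (.lc 1 5 2 6 (.rf 6) (.cmp 5 (.cmp 1 (.cmp 0 .mn (.ru 18 (.k5 0 1 2 5 6 (.rf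
    6))) (.gap (.ru 14 (.ru 18 (.lc 0 5 7 6 (.rf 6) (.lc 0 2 7 5 (.oc 0 1 6 7 5 2 (.oc 7 2 6 0 5
    1 (.oc 5 6 1 0 7 2 (.rf 6)))) (.k5 7 1 2 5 6 (.rf 6)))))))) (.ru 18 (.eq 1 1)) (.cmp 2 (.gap
    (.ru 14 (.ru 18 (.lc 0 5 7 6 (.rf 6) (.lc 0 2 7 5 (.oc 0 1 6 7 5 2 (.oc 7 2 6 0 5 1 (.oc 5 6
    7 0 1 2 (.rf 6)))) (.k5 1 7 2 5 6 (.rf 6))))))) (.cmp 5 (.cmp 1 (.cmp 0 .mn (.rf 19) (.gap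
    (.ru 17 (.lc 0 5 8 3 (.oc 0 1 6 2 5 3 (.oc 2 3 6 0 5 1 (.oc 5 6 2 0 1 3 (.rf 6)))) (.rf
    19))))) (.rf 1) (.cmp 2 (.gap (.rf 1)) (.rf 1) (.gap (.rf 1)))) (.rf 1) (.cmp 3 (.cmp 6
    (.gap (.rf 1)) (.rf 1) (.gap (.rf 1))) (.rf 1) (.gap (.rf 4)))) (.gap (.ru 14 (.ru 18 (.lc 0
    5 7 6 (.rf 6) (.lc 0 2 1 7 (.k5 0 1 2 5 6 (.rf 6)) (.oc 0 1 6 2 5 7 (.oc 2 7 6 0 5 1 (.oc 5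
    6 2 0 1 7 (.rf 6))))))))))) (.ru 14 (.rf 6)) (.cmp 3 (.cmp 6 (.gap (.ru 14 (.ru 18 (.lc 0 2
    1 7 (.k5 0 1 2 5 6 (.rf 6)) (.pt 0 1 5 2 6 7 (.k5 0 1 2 5 6 (.rf 6))))))) (.cmp 5 (.cmp 1
    (.cmp 0 .mn (.rf 5) (.gap (.rf 25))) (.rf 1) (.cmp 2 (.gap (.rf 1)) (.rf 1) (.gap (.rf 1))))
    (.rf 1) (.cmp 3 (.cmp 6 (.gap (.rf 1)) (.rf 1) (.gap (.rf 1))) (.rf 1) (.gap (.rf 4))))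
    (.gap (.cmp 5 (.cmp 1 (.cmp 0 .mn (.rf 5) (.gap (.rf 25))) (.rf 1) (.cmp 2 (.gap (.rf 1))
    (.rf 1) (.gap (.rf 1)))) (.rf 1) (.cmp 7 (.cmp 6 (.gap (.rf 1)) (.rf 1) (.gap (.rf 1))) (.rf
    1) (.cmp 3 (.gap (.rf 1)) (.rf 1) (.gap (.rf 4))))))) (.cmp 5 (.cmp 1 (.cmp 0 .mn (.rf 1)
    (.gap (.rf 1))) (.rf 1) (.cmp 2 (.gap (.rf 1)) (.rf 1) (.gap (.rf 1)))) (.rf 1) (.cmp 3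
    (.cmp 6 (.gap (.rf 1)) (.rf 1) (.gap (.rf 1))) (.rf 1) (.gap (.rf 1)))) (.gap (.cmp 5 (.cmp
    1 (.cmp 0 .mn (.rf 1) (.gap (.rf 1))) (.rf 1) (.cmp 2 (.gap (.rf 26)) (.rf 5) (.gap (.rf
    4)))) (.rf 4) (.cmp 3 (.cmp 6 (.gap (.rf 4)) (.rf 4) (.gap (.rf 4))) (.rf 1) (.cmp 7 (.gap
    (.rf 1)) (.rf 1) (.gap (.rf 1))))))))))))))

/-- Part of a certificate. -/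
def t00_3 : Tr :=
    (.cmp 2 (.cmp 1 (.cmp 0 .mn (.rf 6) (.gap (.ru 12 (.ru 13 (.lc 0 5 6 3 (.lc 6 2 1 5 (.pt 5 6
    3 0 2 1 (.rf 6)) (.rf 6)) (.rf 6)))))) (.rf 6) (.gap (.ru 12 (.ru 13 (.lc 0 5 6 3 (.lc 0 6 1
    5 (.rf 6) (.pt 0 1 2 6 3 5 (.k5 0 1 3 6 5 (.rf 6)))) (.rf 6)))))) (.ru 12 (.lc 0 5 2 3 (.cmp
    2 (.cmp 1 (.cmp 0 .mn (.ru 18 (.k5 0 1 3 2 5 (.rf 6))) (.gap (.ru 14 (.ru 18 (.lc 7 2 1 5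
    (.rf 6) (.pt 5 2 7 1 3 0 (.rf 6))))))) (.ru 18 (.eq 1 1)) (.gap (.ru 14 (.ru 18 (.cmp 2
    (.cmp 1 (.cmp 0 .mn (.rf 19) (.gap (.ru 15 (.ru 16 (.ru 17 (.lc 8 7 1 5 (.k5 8 1 2 7 3 (.k5
    1 7 3 2 5 (.rf 6))) (.rf 19))))))) (.rf 1) (.cmp 7 (.gap (.rf 1)) (.rf 1) (.gap (.rf 1))))
    (.rf 1) (.cmp 3 (.cmp 5 (.gap (.rf 1)) (.rf 1) (.gap (.rf 1))) (.rf 1) (.gap (.rf 26))))))))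
    (.cmp 2 (.cmp 1 (.cmp 0 .mn (.rf 19) (.gap (.ru 15 (.lc 8 2 1 5 (.rf 6) (.rf 19))))) (.rf 1)
    (.gap (.rf 1))) (.rf 1) (.cmp 3 (.cmp 5 (.gap (.rf 1)) (.rf 1) (.gap (.rf 1))) (.rf 1) (.gap
    (.rf 4)))) (.cmp 3 (.cmp 5 (.gap (.ru 14 (.ru 18 (.lc 0 2 1 7 (.k5 0 1 3 2 5 (.rf 6)) (.pt 0
    1 7 2 3 5 (.k5 0 1 3 2 5 (.rf 6))))))) (.ru 14 (.rf 6)) (.gap (.ru 14 (.ru 18 (.lc 0 5 2 7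
    (.lc 0 2 1 7 (.k5 0 1 3 2 5 (.rf 6)) (.oc 2 5 3 0 7 1 (.rf 6))) (.rf 6)))))) (.cmp 2 (.cmp 1
    (.cmp 0 .mn (.rf 1) (.gap (.rf 1))) (.rf 1) (.gap (.rf 1))) (.rf 1) (.cmp 3 (.cmp 5 (.gap
    (.rf 1)) (.rf 1) (.gap (.rf 1))) (.rf 1) (.gap (.rf 1)))) (.gap (.ru 14 (.ru 18 (.lc 0 5 2 7
    (.lc 0 2 1 7 (.k5 0 1 3 2 5 (.rf 6)) (.oc 2 5 7 0 3 1 (.rf 6))) (.rf 6))))))) (.rf 6)))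
    (.cmp 3 t00_2 (.ru 13 (.lc 0 5 2 3 (.rf 6) (.cmp 2 (.cmp 1 (.cmp 0 .mn (.ru 18 (.k5 0 1 2 5
    3 (.rf 6))) (.gap (.ru 14 (.ru 18 (.lc 0 5 7 3 (.rf 6) (.lc 0 2 7 5 (.oc 0 1 3 7 5 2 (.oc 7
    2 3 0 5 1 (.oc 5 3 1 0 7 2 (.rf 6)))) (.k5 7 1 2 5 3 (.rf 6)))))))) (.ru 18 (.eq 1 1)) (.gap
    (.ru 14 (.ru 18 (.lc 0 5 7 3 (.rf 6) (.lc 0 2 7 5 (.oc 0 1 3 7 5 2 (.oc 7 2 3 0 5 1 (.oc 5 3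
    7 0 1 2 (.rf 6)))) (.k5 1 7 2 5 3 (.rf 6)))))))) (.cmp 2 (.cmp 1 (.cmp 0 .mn (.rf 19) (.gap
    (.ru 17 (.lc 0 5 8 3 (.rf 6) (.rf 19))))) (.rf 1) (.gap (.rf 1))) (.rf 1) (.cmp 3 (.cmp 5
    (.gap (.rf 1)) (.rf 1) (.gap (.rf 1))) (.rf 1) (.gap (.rf 4)))) (.cmp 3 (.cmp 5 (.gap (.ru
    14 (.ru 18 (.lc 0 5 7 3 (.rf 6) (.lc 0 2 1 7 (.k5 0 1 2 5 3 (.rf 6)) (.oc 0 1 3 2 5 7 (.oc 2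
    7 3 0 5 1 (.oc 5 3 2 0 1 7 (.rf 6))))))))) (.ru 14 (.rf 6)) (.gap (.ru 14 (.ru 18 (.lc 0 2 1
    7 (.k5 0 1 2 5 3 (.rf 6)) (.pt 0 1 5 2 3 7 (.k5 0 1 2 5 3 (.rf 6)))))))) (.cmp 2 (.cmp 1
    (.cmp 0 .mn (.rf 1) (.gap (.rf 1))) (.rf 1) (.gap (.rf 1))) (.rf 1) (.cmp 3 (.cmp 5 (.gap
    (.rf 1)) (.rf 1) (.gap (.rf 1))) (.rf 1) (.gap (.rf 1)))) (.gap (.cmp 5 (.cmp 1 (.cmp 0 .mn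
    (.rf 1) (.gap (.rf 1))) (.rf 1) (.cmp 2 (.gap (.rf 26)) (.rf 5) (.gap (.rf 4)))) (.rf 4)
    (.cmp 7 (.cmp 3 (.gap (.rf 4)) (.rf 1) (.gap (.rf 1))) (.rf 1) (.gap (.rf 1))))))))) (.gap
    (.ru 12 (.ru 13 (.lc 0 5 2 6 (.rf 6) (.lc 1 5 2 6 (.rf 6) (.pt 0 1 5 2 6 3 (.k5 0 1 2 5 6
    (.rf 6))))))))))

/-- Part of a certificate. -/
def t00_4 : Tr :=
    (.cmp 2 (.cmp 1 (.cmp 0 .mn (.ru 18 (.k5 0 1 3 6 5 (.rf 6))) (.gap (.ru 14 (.ru 18 (.lc 7 6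
    1 5 (.rf 6) (.pt 5 6 7 1 3 0 (.rf 6))))))) (.ru 18 (.eq 1 1)) (.cmp 4 (.gap (.ru 14 (.ru 18
    (.lc 7 6 4 5 (.rf 6) (.lc 0 2 7 6 (.oc 0 1 5 7 6 3 (.oc 7 3 5 0 6 1 (.oc 6 5 7 0 1 3 (.rf
    6)))) (.cp 1 7 2 6 5 0 (.cp 1 7 2 6 5 4 (.cp 7 1 2 6 5 0 (.cp 7 1 2 6 5 4 (.cp 4 1 7 2 6 0
    (.cp 6 0 1 7 4 5 (.rf 6)))))))))))) (.ru 18 (.cp 1 4 2 6 5 0 (.cp 4 1 2 6 5 0 (.cp 4 2 0 1 6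
    3 (.cp 2 0 1 4 6 3 (.cp 2 0 1 4 3 5 (.cp 6 0 1 4 2 5 (.rf 6)))))))) (.gap (.ru 14 (.ru 18
    (.cmp 2 (.cmp 4 (.cmp 1 (.cmp 0 .mn (.ru 16 (.lc 0 7 4 2 (.k5 0 2 6 4 7 (.k5 7 2 6 0 1 (.k5
    7 2 6 1 4 (.oc 4 3 5 0 6 1 (.oc 6 5 4 0 1 3 (.rf 6)))))) (.rf 19))) (.gap (.ru 15 (.ru 16
    (.ru 17 (.lc 8 7 4 5 (.lc 8 4 1 3 (.pt 4 1 3 8 2 6 (.pt 5 6 1 4 3 0 (.rf 6))) (.cp 1 4 2 6 5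
    0 (.cp 1 6 4 2 7 8 (.cp 4 1 2 6 5 0 (.cp 4 2 8 1 6 7 (.cp 7 1 8 4 6 2 (.cp 7 1 4 2 6 0 (.cp
    6 0 1 4 7 5 (.rf 6))))))))) (.rf 19))))))) (.rf 1) (.gap (.rf 1))) (.rf 1) (.cmp 7 (.gap
    (.rf 1)) (.rf 1) (.gap (.rf 1)))) (.rf 1) (.cmp 5 (.cmp 6 (.gap (.rf 1)) (.rf 1) (.gap (.rf
    1))) (.rf 1) (.cmp 3 (.gap (.rf 1)) (.rf 1) (.gap (.rf 26)))))))))) (.cmp 2 (.cmp 1 (.cmp 0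
    .mn (.rf 19) (.gap (.ru 15 (.ru 17 (.lc 0 5 8 3 (.lc 8 2 1 5 (.oc 0 1 3 8 2 6 (.pt 6 8 3 0 2
    1 (.pt 5 8 3 0 2 1 (.oc 6 5 1 0 8 2 (.rf 6))))) (.rf 19)) (.rf 19)))))) (.rf 1) (.cmp 4
    (.gap (.rf 1)) (.rf 1) (.gap (.rf 1)))) (.rf 1) (.cmp 5 (.cmp 6 (.gap (.rf 1)) (.rf 1) (.gap
    (.rf 1))) (.rf 1) (.cmp 3 (.gap (.rf 1)) (.rf 1) (.gap (.rf 4))))) (.cmp 5 (.cmp 6 (.gap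
    (.cmp 7 (.cmp 4 (.cmp 1 (.cmp 0 .mn (.rf 5) (.gap (.ru 16 (.lc 8 7 4 5 (.lc 2 6 7 5 (.rf 6)
    (.oc 0 1 5 2 6 3 (.oc 2 3 5 0 6 1 (.oc 6 5 2 0 1 3 (.rf 6))))) (.rf 19))))) (.rf 1) (.gap
    (.rf 1))) (.rf 1) (.cmp 2 (.gap (.rf 1)) (.rf 1) (.gap (.rf 1)))) (.rf 1) (.cmp 5 (.cmp 6
    (.gap (.rf 1)) (.rf 1) (.gap (.rf 1))) (.rf 1) (.cmp 3 (.gap (.rf 1)) (.rf 1) (.gap (.rf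
    4)))))) (.cmp 2 (.cmp 1 (.cmp 0 .mn (.rf 5) (.gap (.ru 15 (.ru 16 (.ru 17 (.lc 0 5 8 3 (.k5
    0 8 6 2 3 (.k5 2 6 3 0 1 (.k5 2 6 3 8 1 (.cp 0 1 2 6 5 4 (.cp 8 1 0 2 6 4 (.cp 8 2 0 1 4 5
    (.cp 6 0 8 1 4 5 (.rf 6)))))))) (.rf 19))))))) (.rf 1) (.cmp 4 (.gap (.rf 1)) (.rf 1) (.gap
    (.rf 1)))) (.rf 1) (.cmp 5 (.cmp 6 (.gap (.rf 1)) (.rf 1) (.gap (.rf 1))) (.rf 1) (.cmp 3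
    (.gap (.rf 1)) (.rf 1) (.gap (.rf 4))))) (.gap (.ru 14 (.ru 18 (.lc 0 2 1 7 (.k5 0 1 3 6 5
    (.rf 6)) (.pt 0 1 7 6 3 5 (.cp 0 1 2 6 5 4 (.cp 1 0 2 6 5 4 (.cp 4 0 1 6 5 3 (.cp 2 0 1 4 6
    3 (.cp 2 0 1 4 3 5 (.cp 6 0 1 4 2 5 (.rf 6))))))))))))) (.ru 14 (.rf 6)) (.cmp 3 (.gap (.ru
    14 (.ru 18 (.lc 0 5 6 7 (.lc 0 2 1 7 (.k5 0 1 3 6 5 (.rf 6)) (.oc 6 5 3 0 7 1 (.rf 6))) (.rf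
    6))))) (.cmp 2 (.cmp 1 (.cmp 0 .mn (.rf 1) (.gap (.rf 1))) (.rf 1) (.cmp 4 (.gap (.rf 1))
    (.rf 1) (.gap (.rf 1)))) (.rf 1) (.cmp 5 (.cmp 6 (.gap (.rf 1)) (.rf 1) (.gap (.rf 1))) (.rf
    1) (.cmp 3 (.gap (.rf 1)) (.rf 1) (.gap (.rf 1))))) (.gap (.ru 14 (.ru 18 (.lc 0 5 6 7 (.lc
    0 2 1 7 (.k5 0 1 3 6 5 (.rf 6)) (.oc 6 5 7 0 3 1 (.rf 6))) (.rf 6))))))))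

/-- Part of a certificate. -/
def t00_5 : Tr :=
    (.cmp 3 (.cmp 5 (.gap (.ru 12 (.ru 13 (.lc 0 5 6 3 (.lc 0 6 1 5 (.rf 6) (.lc 0 6 4 5 (.rf 6)
    t00_4)) (.rf 6))))) (.rf 7) (.gap (.ru 12 (.ru 13 (.lc 0 5 2 6 (.rf 6) (.lc 1 5 2 6 (.rf 6)
    (.lc 4 5 2 6 (.rf 6) (.cmp 2 (.cmp 1 (.cmp 0 .mn (.ru 18 (.k5 0 1 2 5 6 (.rf 6))) (.gap (.ru
    14 (.ru 18 (.lc 0 5 7 6 (.rf 6) (.lc 0 2 7 5 (.oc 0 1 6 7 5 2 (.oc 7 2 6 0 5 1 (.oc 5 6 1 0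
    7 2 (.rf 6)))) (.k5 7 1 2 5 6 (.rf 6)))))))) (.ru 18 (.eq 1 1)) (.cmp 4 (.gap (.ru 14 (.ru
    18 (.lc 0 5 7 6 (.rf 6) (.pt 5 6 7 1 2 4 (.rf 6)))))) (.ru 18 (.k5 1 4 2 5 6 (.rf 6))) (.gap
    (.ru 14 (.ru 18 (.lc 0 5 7 6 (.rf 6) (.lc 0 2 7 5 (.oc 0 1 6 7 5 2 (.oc 7 2 6 0 5 1 (.oc 5 6
    7 0 1 2 (.rf 6)))) (.k5 1 7 2 5 6 (.rf 6))))))))) (.cmp 2 (.cmp 1 (.cmp 0 .mn (.rf 19) (.gap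
    (.ru 17 (.lc 0 5 8 3 (.oc 0 1 6 2 5 3 (.oc 2 3 6 0 5 1 (.oc 5 6 2 0 1 3 (.rf 6)))) (.rf
    19))))) (.rf 1) (.cmp 4 (.gap (.rf 1)) (.rf 1) (.gap (.rf 1)))) (.rf 1) (.cmp 6 (.cmp 5
    (.gap (.rf 1)) (.rf 1) (.gap (.rf 1))) (.rf 1) (.cmp 3 (.gap (.rf 1)) (.rf 1) (.gap (.rf
    4))))) (.cmp 6 (.cmp 5 (.gap (.ru 14 (.ru 18 (.lc 0 5 7 6 (.rf 6) (.lc 0 2 1 7 (.k5 0 1 2 5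
    6 (.rf 6)) (.oc 0 1 6 2 5 7 (.oc 2 7 6 0 5 1 (.oc 5 6 2 0 1 7 (.rf 6))))))))) (.ru 14 (.rf
    6)) (.gap (.ru 14 (.ru 18 (.lc 0 2 1 7 (.k5 0 1 2 5 6 (.rf 6)) (.pt 0 1 5 2 6 7 (.pt 5 6 1 0
    2 4 (.rf 6)))))))) (.cmp 2 (.cmp 1 (.cmp 0 .mn (.rf 5) (.gap (.rf 25))) (.rf 1) (.cmp 4
    (.gap (.rf 1)) (.rf 1) (.gap (.rf 1)))) (.rf 1) (.cmp 6 (.cmp 5 (.gap (.rf 1)) (.rf 1) (.gap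
    (.rf 1))) (.rf 1) (.cmp 3 (.gap (.rf 1)) (.rf 1) (.gap (.rf 4))))) (.cmp 3 (.gap (.cmp 5
    (.cmp 4 (.cmp 1 (.cmp 0 .mn (.rf 5) (.gap (.rf 25))) (.rf 1) (.gap (.rf 1))) (.rf 1) (.cmp 2
    (.gap (.rf 1)) (.rf 1) (.gap (.rf 1)))) (.rf 1) (.cmp 7 (.cmp 6 (.gap (.rf 1)) (.rf 1) (.gap
    (.rf 1))) (.rf 1) (.cmp 3 (.gap (.rf 1)) (.rf 1) (.gap (.rf 4)))))) (.cmp 2 (.cmp 1 (.cmp 0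
    .mn (.rf 1) (.gap (.rf 1))) (.rf 1) (.cmp 4 (.gap (.rf 1)) (.rf 1) (.gap (.rf 1)))) (.rf 1)
    (.cmp 6 (.cmp 5 (.gap (.rf 1)) (.rf 1) (.gap (.rf 1))) (.rf 1) (.cmp 3 (.gap (.rf 1)) (.rf
    1) (.gap (.rf 1))))) (.gap (.cmp 5 (.cmp 4 (.cmp 1 (.cmp 0 .mn (.rf 1) (.gap (.rf 1))) (.rf
    1) (.gap (.rf 25))) (.rf 25) (.cmp 2 (.gap (.rf 26)) (.rf 5) (.gap (.rf 4)))) (.rf 4) (.cmp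
    3 (.cmp 6 (.gap (.rf 4)) (.rf 4) (.gap (.rf 4))) (.rf 1) (.cmp 7 (.gap (.rf 1)) (.rf 1)
    (.gap (.rf 1)))))))))))))))) (.ru 13 (.lc 0 5 2 3 (.rf 6) (.lc 4 5 2 3 (.rf 6) (.cmp 2 (.cmp
    1 (.cmp 0 .mn (.ru 18 (.k5 0 1 2 5 3 (.rf 6))) (.gap (.ru 14 (.ru 18 (.lc 0 5 7 3 (.rf 6)
    (.lc 0 2 7 5 (.oc 0 1 3 7 5 2 (.oc 7 2 3 0 5 1 (.oc 5 3 1 0 7 2 (.rf 6)))) (.k5 7 1 2 5 3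
    (.rf 6)))))))) (.ru 18 (.eq 1 1)) (.cmp 4 (.gap (.ru 14 (.ru 18 (.lc 0 5 7 3 (.rf 6) (.pt 5
    3 7 1 2 4 (.rf 6)))))) (.ru 18 (.k5 1 4 2 5 3 (.rf 6))) (.gap (.ru 14 (.ru 18 (.lc 0 5 7 3
    (.rf 6) (.lc 0 2 7 5 (.oc 0 1 3 7 5 2 (.oc 7 2 3 0 5 1 (.oc 5 3 7 0 1 2 (.rf 6)))) (.k5 1 7
    2 5 3 (.rf 6))))))))) (.cmp 2 (.cmp 1 (.cmp 0 .mn (.rf 19) (.gap (.ru 17 (.lc 0 5 8 3 (.rf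
    6) (.rf 19))))) (.rf 1) (.cmp 4 (.gap (.rf 1)) (.rf 1) (.gap (.rf 1)))) (.rf 1) (.cmp 3
    (.cmp 5 (.gap (.rf 1)) (.rf 1) (.gap (.rf 1))) (.rf 1) (.gap (.rf 4)))) (.cmp 3 (.cmp 5
    (.gap (.ru 14 (.ru 18 (.lc 0 5 7 3 (.rf 6) (.lc 0 2 1 7 (.k5 0 1 2 5 3 (.rf 6)) (.oc 0 1 3 2
    5 7 (.oc 2 7 3 0 5 1 (.oc 5 3 2 0 1 7 (.rf 6))))))))) (.ru 14 (.rf 6)) (.gap (.ru 14 (.ru 18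
    (.lc 0 2 1 7 (.k5 0 1 2 5 3 (.rf 6)) (.pt 0 1 5 2 3 7 (.pt 5 3 1 0 2 4 (.rf 6)))))))) (.cmp
    2 (.cmp 1 (.cmp 0 .mn (.rf 1) (.gap (.rf 1))) (.rf 1) (.cmp 4 (.gap (.rf 1)) (.rf 1) (.gap
    (.rf 1)))) (.rf 1) (.cmp 3 (.cmp 5 (.gap (.rf 1)) (.rf 1) (.gap (.rf 1))) (.rf 1) (.gap (.rf
    1)))) (.gap (.cmp 2 (.cmp 1 (.cmp 0 .mn (.rf 1) (.gap (.rf 1))) (.rf 1) (.cmp 4 (.gap (.rf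
    25)) (.rf 25) (.gap (.rf 26)))) (.rf 5) (.cmp 3 (.cmp 5 (.gap (.rf 4)) (.rf 4) (.gap (.rf
    4))) (.rf 1) (.cmp 7 (.gap (.rf 1)) (.rf 1) (.gap (.rf 1))))))))))) (.gap (.ru 12 (.ru 13
    (.lc 0 5 2 6 (.rf 6) (.lc 1 5 2 6 (.rf 6) (.pt 0 1 5 2 6 3 (.k5 0 1 2 5 6 (.rf 6)))))))))

/-- Part of a certificate. -/
def t00_6 : Tr :=
    (.cmp 2 (.cmp 1 (.cmp 0 .mn (.rf 6) (.gap (.ru 12 (.ru 13 (.lc 0 5 6 3 (.lc 6 2 1 5 (.pt 5 6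
    3 0 2 1 (.rf 6)) (.rf 6)) (.rf 6)))))) (.rf 6) (.cmp 4 (.gap (.ru 12 (.ru 13 (.lc 0 5 6 3
    (.lc 0 6 1 5 (.rf 6) (.pt 0 1 2 6 3 5 (.k5 0 1 3 6 5 (.rf 6)))) (.rf 6))))) (.rf 6) (.gap
    (.ru 12 (.ru 13 (.lc 0 5 6 3 (.lc 0 6 1 5 (.rf 6) (.pt 0 1 2 6 3 5 (.k5 0 1 3 6 5 (.rf 6))))
    (.rf 6))))))) (.ru 12 (.lc 0 5 2 3 (.cmp 2 (.cmp 1 (.cmp 0 .mn (.ru 18 (.k5 0 1 3 2 5 (.rf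
    6))) (.gap (.ru 14 (.ru 18 (.lc 7 2 1 5 (.rf 6) (.pt 5 2 7 1 3 0 (.rf 6))))))) (.ru 18 (.eq
    1 1)) (.cmp 4 (.gap (.ru 14 (.ru 18 (.lc 7 2 4 5 (.rf 6) (.cmp 4 (.cmp 1 (.cmp 0 .mn (.ru 16
    (.oc 0 1 5 7 2 3 (.oc 7 3 5 0 2 1 (.oc 2 5 7 0 1 3 (.rf 6))))) (.gap (.ru 15 (.ru 16 (.ru 17
    (.lc 8 2 1 5 (.rf 6) (.oc 8 1 5 7 2 3 (.oc 7 3 5 8 2 1 (.oc 2 5 7 8 1 3 (.rf 6))))))))))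
    (.rf 1) (.cmp 7 (.gap (.rf 1)) (.rf 1) (.gap (.rf 1)))) (.rf 1) (.cmp 5 (.cmp 2 (.gap (.rf
    1)) (.rf 1) (.gap (.rf 1))) (.rf 1) (.cmp 3 (.gap (.rf 1)) (.rf 1) (.gap (.rf 25)))))))))
    (.ru 18 (.cmp 2 (.cmp 1 (.cmp 0 .mn (.ru 16 (.oc 0 1 5 4 2 3 (.oc 4 3 5 0 2 1 (.oc 2 5 4 0 1
    3 (.rf 6))))) (.gap (.ru 15 (.ru 16 (.ru 17 (.lc 8 2 1 5 (.rf 6) (.oc 8 1 5 4 2 3 (.oc 4 3 5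
    8 2 1 (.oc 2 5 4 8 1 3 (.rf 6)))))))))) (.rf 1) (.cmp 4 (.gap (.rf 1)) (.rf 1) (.gap (.rf
    1)))) (.rf 1) (.cmp 3 (.cmp 5 (.gap (.rf 1)) (.rf 1) (.gap (.rf 1))) (.rf 1) (.gap (.rf
    25))))) (.gap (.ru 14 (.ru 18 (.cmp 7 (.cmp 1 (.cmp 0 .mn (.ru 16 (.lc 0 7 4 2 (.lc 0 4 1 7
    (.rf 19) (.oc 0 1 5 4 2 3 (.oc 4 3 5 0 2 1 (.oc 2 5 4 0 1 3 (.rf 6))))) (.rf 19))) (.gap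
    (.ru 15 (.ru 16 (.ru 17 (.lc 8 7 4 5 (.lc 8 2 1 5 (.rf 6) (.oc 8 1 5 7 2 3 (.oc 7 3 5 8 2 1
    (.oc 2 5 7 8 1 3 (.rf 6))))) (.rf 19))))))) (.rf 1) (.cmp 4 (.gap (.rf 1)) (.rf 1) (.gap
    (.rf 1)))) (.rf 1) (.cmp 5 (.cmp 2 (.gap (.rf 1)) (.rf 1) (.gap (.rf 1))) (.rf 1) (.cmp 3
    (.gap (.rf 1)) (.rf 1) (.gap (.rf 26)))))))))) (.cmp 2 (.cmp 1 (.cmp 0 .mn (.rf 19) (.gap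
    (.ru 15 (.lc 8 2 1 5 (.rf 6) (.rf 19))))) (.rf 1) (.cmp 4 (.gap (.rf 1)) (.rf 1) (.gap (.rf
    1)))) (.rf 1) (.cmp 3 (.cmp 5 (.gap (.rf 1)) (.rf 1) (.gap (.rf 1))) (.rf 1) (.gap (.rf
    4)))) (.cmp 3 (.cmp 5 (.gap (.ru 14 (.ru 18 (.lc 0 2 1 7 (.k5 0 1 3 2 5 (.rf 6)) (.pt 0 1 7
    2 3 5 (.k5 0 1 3 2 5 (.rf 6))))))) (.ru 14 (.rf 6)) (.gap (.ru 14 (.ru 18 (.lc 0 5 2 7 (.lc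
    0 2 1 7 (.k5 0 1 3 2 5 (.rf 6)) (.oc 2 5 3 0 7 1 (.rf 6))) (.rf 6)))))) (.cmp 2 (.cmp 1
    (.cmp 0 .mn (.rf 1) (.gap (.rf 1))) (.rf 1) (.cmp 4 (.gap (.rf 1)) (.rf 1) (.gap (.rf 1))))
    (.rf 1) (.cmp 3 (.cmp 5 (.gap (.rf 1)) (.rf 1) (.gap (.rf 1))) (.rf 1) (.gap (.rf 1))))
    (.gap (.ru 14 (.ru 18 (.lc 0 5 2 7 (.lc 0 2 1 7 (.k5 0 1 3 2 5 (.rf 6)) (.oc 2 5 7 0 3 1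
    (.rf 6))) (.rf 6))))))) (.rf 6))) t00_5)

/-- Part of a certificate. -/
def t00_7 : Tr :=
    (.cmp 1 (.cmp 0 .mn (.cmp 2 (.cmp 1 (.cmp 0 .mn (.rf 0) (.gap (.rf 0))) (.rf 0) (.gap (.rf
    0))) (.rf 0) (.cmp 3 (.gap (.rf 0)) (.rf 0) (.gap (.rf 0)))) (.gap (.ru 10 (.cmp 1 (.cmp 4
    (.cmp 0 .mn (.rf 0) (.gap (.rf 0))) (.rf 0) (.gap (.rf 0))) (.rf 0) (.cmp 3 (.cmp 2 (.gap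
    (.rf 0)) (.rf 0) (.gap (.ru 8 (.ru 9 (.ru 11 (.cmp 2 (.cmp 4 (.cmp 0 .mn (.rf 6) (.gap (.ru
    12 (.ru 13 (.lc 0 5 6 3 (.lc 6 2 4 5 (.pt 5 6 3 0 2 4 (.rf 6)) (.rf 6)) (.rf 6)))))) (.rf 6)
    (.cmp 1 (.gap (.ru 12 (.ru 13 (.lc 0 5 6 3 (.lc 6 2 1 5 (.pt 5 6 3 0 2 1 (.rf 6)) (.rf 6))
    (.rf 6))))) (.rf 6) (.gap (.ru 12 (.ru 13 (.lc 0 5 6 3 (.lc 0 6 4 5 (.rf 6) (.lc 0 6 1 5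
    (.rf 6) (.pt 0 1 2 6 3 5 (.cp 0 1 6 2 5 4 (.cp 4 0 6 2 5 1 (.cp 6 0 4 1 3 5 (.rf 6)))))))
    (.rf 6))))))) (.ru 12 (.lc 0 5 2 3 (.cmp 2 (.cmp 4 (.cmp 0 .mn (.ru 18 (.k5 0 1 3 2 5 (.rf
    6))) (.gap (.ru 14 (.ru 18 (.lc 7 2 4 5 (.rf 6) (.pt 5 2 7 1 3 0 (.rf 6))))))) (.ru 18 (.pt
    5 2 4 1 3 0 (.rf 6))) (.cmp 1 (.gap (.ru 14 (.ru 18 (.lc 7 2 1 5 (.rf 6) (.pt 5 2 7 1 3 0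
    (.rf 6)))))) (.ru 18 (.eq 1 1)) (.gap (.ru 14 (.ru 18 (.cmp 7 (.cmp 4 (.cmp 0 .mn (.ru 16
    (.lc 0 7 4 5 (.oc 0 1 5 7 2 3 (.oc 7 3 5 0 2 1 (.oc 2 5 7 0 1 3 (.rf 6)))) (.rf 24))) (.gap
    (.ru 15 (.ru 16 (.ru 17 (.lc 8 7 4 5 (.lc 8 2 4 5 (.rf 6) (.oc 8 1 5 7 2 3 (.oc 7 3 5 8 2 1
    (.oc 2 5 7 8 1 3 (.rf 6))))) (.rf 24))))))) (.rf 22) (.cmp 1 (.gap (.rf 22)) (.rf 1) (.gap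
    (.rf 1)))) (.rf 1) (.cmp 5 (.cmp 2 (.gap (.rf 1)) (.rf 1) (.gap (.rf 1))) (.rf 1) (.cmp 3
    (.gap (.rf 1)) (.rf 1) (.gap (.rf 26)))))))))) (.cmp 2 (.cmp 4 (.cmp 0 .mn (.rf 24) (.gap
    (.ru 15 (.lc 8 2 4 5 (.rf 6) (.rf 24))))) (.rf 22) (.cmp 1 (.gap (.rf 22)) (.rf 1) (.gap
    (.rf 1)))) (.rf 1) (.cmp 3 (.cmp 5 (.gap (.rf 1)) (.rf 1) (.gap (.rf 1))) (.rf 1) (.gap (.rf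
    4)))) (.cmp 3 (.cmp 5 (.gap (.ru 14 (.ru 18 (.lc 0 2 1 7 (.k5 0 1 3 2 5 (.rf 6)) (.pt 0 1 7
    2 3 5 (.k5 0 1 3 2 5 (.rf 6))))))) (.ru 14 (.rf 6)) (.gap (.ru 14 (.ru 18 (.lc 0 5 2 7 (.lc
    0 2 1 7 (.k5 0 1 3 2 5 (.rf 6)) (.oc 2 5 3 0 7 1 (.rf 6))) (.rf 6)))))) (.cmp 2 (.cmp 4
    (.cmp 0 .mn (.rf 1) (.gap (.rf 1))) (.rf 1) (.cmp 1 (.gap (.rf 1)) (.rf 1) (.gap (.rf 1))))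
    (.rf 1) (.cmp 3 (.cmp 5 (.gap (.rf 1)) (.rf 1) (.gap (.rf 1))) (.rf 1) (.gap (.rf 1))))
    (.gap (.ru 14 (.ru 18 (.lc 0 5 2 7 (.lc 0 2 1 7 (.k5 0 1 3 2 5 (.rf 6)) (.oc 2 5 7 0 3 1
    (.rf 6))) (.rf 6))))))) (.rf 6))) t00_1)))))) (.rf 2) (.gap (.rf 2))))))) (.cmp 2 (.cmp 1
    (.cmp 0 .mn (.rf 0) (.gap (.rf 0))) (.rf 0) (.gap (.rf 0))) (.rf 0) (.cmp 3 (.gap (.ru 8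
    (.ru 9 t00_3))) (.cmp 2 (.cmp 1 (.cmp 0 .mn (.rf 6) (.gap (.ru 12 (.rf 6)))) (.rf 6) (.gap
    (.ru 12 (.rf 6)))) (.ru 12 (.rf 6)) (.cmp 3 (.gap (.ru 12 (.rf 6))) (.rf 7) (.gap (.ru 12
    (.rf 6))))) (.gap (.rf 3)))) (.gap (.ru 10 (.cmp 4 (.cmp 1 (.cmp 0 .mn (.rf 0) (.gap (.rf
    0))) (.rf 0) (.gap (.rf 0))) (.rf 0) (.cmp 3 (.cmp 2 (.gap (.rf 0)) (.rf 0) (.gap (.ru 8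
    (.ru 9 (.ru 11 t00_6))))) (.ru 8 (.cmp 4 (.cmp 1 (.cmp 0 .mn (.rf 6) (.gap (.ru 12 (.rf
    6)))) (.rf 6) (.gap (.ru 12 (.rf 6)))) (.rf 6) (.cmp 3 (.cmp 2 (.gap (.ru 12 (.rf 6))) (.ru
    12 (.rf 6)) (.gap (.ru 12 (.rf 6)))) (.rf 7) (.gap (.ru 12 (.rf 6)))))) (.gap (.rf 21)))))))

/-- Part of a certificate. -/
def t00_8 : Tr :=
    (.cmp 4 (.cmp 2 (.gap (.ru 14 (.ru 18 (.cmp 7 (.cmp 1 (.cmp 5 (.cmp 0 .mn (.ru 16 (.lc 0 7 5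
    4 (.rf 24) (.lc 5 7 6 2 (.rf 6) (.cp 5 0 2 4 7 6 (.rf 6))))) (.gap (.ru 16 (.lc 8 7 5 4 (.rf
    24) (.lc 5 7 6 2 (.rf 6) (.lc 1 7 6 4 (.oc 5 6 2 1 7 4 (.rf 6)) (.cp 5 1 2 4 7 6 (.rf
    6)))))))) (.rf 23) (.gap (.rf 22))) (.rf 1) (.cmp 6 (.gap (.rf 1)) (.rf 1) (.gap (.rf 1))))
    (.rf 1) (.cmp 4 (.cmp 2 (.gap (.rf 1)) (.rf 1) (.gap (.rf 1))) (.rf 1) (.cmp 3 (.gap (.rf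
    1)) (.rf 1) (.gap (.rf 26)))))))) (.cmp 6 (.cmp 5 (.cmp 0 .mn (.rf 24) (.gap (.ru 15 (.ru 17
    (.lc 0 5 8 2 (.lc 8 2 5 4 (.rf 24) (.pt 5 8 3 0 2 4 (.cp 8 5 2 4 3 6 (.cp 5 0 8 2 3 6 (.rf
    6))))) (.rf 24)))))) (.rf 23) (.cmp 1 (.gap (.rf 22)) (.rf 1) (.gap (.rf 1)))) (.rf 1) (.cmp
    4 (.cmp 2 (.gap (.rf 1)) (.rf 1) (.gap (.rf 1))) (.rf 1) (.cmp 3 (.gap (.rf 1)) (.rf 1)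
    (.gap (.rf 4))))) (.gap (.ru 14 (.ru 18 (.cmp 2 (.cmp 1 (.cmp 5 (.cmp 0 .mn (.rf 5) (.gap
    (.ru 15 (.ru 16 (.ru 17 (.lc 8 7 5 4 (.rf 24) (.lc 0 5 8 2 (.pt 5 8 3 0 2 4 (.cp 0 8 5 2 3 1
    (.cp 0 2 8 5 1 7 (.cp 8 5 2 4 7 6 (.cp 5 0 8 2 7 6 (.rf 6)))))) (.lc 8 7 2 4 (.rf 24) (.pt 7
    4 5 8 2 6 (.cp 8 5 7 4 3 6 (.cp 8 6 2 7 3 1 (.cp 5 8 1 7 4 2 (.cp 5 8 2 7 4 6 (.rf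
    6)))))))))))))) (.rf 23) (.gap (.rf 22))) (.rf 1) (.cmp 6 (.gap (.rf 1)) (.rf 1) (.gap (.rf
    1)))) (.rf 1) (.cmp 4 (.cmp 7 (.gap (.rf 1)) (.rf 1) (.gap (.rf 1))) (.rf 1) (.cmp 3 (.gap
    (.rf 1)) (.rf 1) (.gap (.rf 4))))))))) (.ru 18 (.cmp 6 (.cmp 5 (.cmp 0 .mn (.rf 5) (.gap
    (.rf 27))) (.ru 15 (.cp 5 1 2 4 3 6 (.rf 6))) (.cmp 1 (.gap (.rf 22)) (.rf 1) (.gap (.rf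
    1)))) (.rf 1) (.cmp 4 (.cmp 2 (.gap (.rf 1)) (.rf 1) (.gap (.rf 1))) (.rf 1) (.cmp 3 (.gap
    (.rf 1)) (.rf 1) (.gap (.rf 4)))))) (.cmp 3 (.gap (.cmp 2 (.cmp 1 (.cmp 5 (.cmp 0 .mn (.rf
    5) (.gap (.rf 27))) (.rf 28) (.gap (.rf 29))) (.rf 1) (.cmp 6 (.gap (.rf 1)) (.rf 1) (.gap
    (.rf 1)))) (.rf 1) (.cmp 7 (.cmp 4 (.gap (.rf 1)) (.rf 1) (.gap (.rf 1))) (.rf 1) (.cmp 3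
    (.gap (.rf 1)) (.rf 1) (.gap (.rf 4)))))) (.cmp 6 (.cmp 5 (.cmp 0 .mn (.rf 1) (.gap (.rf
    1))) (.rf 1) (.cmp 1 (.gap (.rf 1)) (.rf 1) (.gap (.rf 1)))) (.rf 1) (.cmp 4 (.cmp 2 (.gap
    (.rf 1)) (.rf 1) (.gap (.rf 1))) (.rf 1) (.cmp 3 (.gap (.rf 1)) (.rf 1) (.gap (.rf 1)))))
    (.gap (.cmp 2 (.cmp 1 (.cmp 5 (.cmp 0 .mn (.rf 1) (.gap (.rf 1))) (.rf 1) (.gap (.rf 1)))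
    (.rf 1) (.cmp 6 (.gap (.rf 26)) (.rf 26) (.gap (.rf 26)))) (.rf 5) (.cmp 3 (.cmp 4 (.gap
    (.rf 4)) (.rf 4) (.gap (.rf 4))) (.rf 1) (.cmp 7 (.gap (.rf 1)) (.rf 1) (.gap (.rf 1))))))))

/-- Part of a certificate. -/
def t00_9 : Tr :=
    (.cmp 4 (.cmp 6 (.gap (.ru 14 (.ru 18 (.cmp 7 (.cmp 1 (.cmp 5 (.cmp 0 .mn (.rf 5) (.gap (.ru
    16 (.lc 8 7 5 4 (.rf 24) (.lc 5 7 2 6 (.lc 5 4 1 3 (.pt 3 2 0 5 4 6 (.cp 5 1 2 3 7 6 (.rf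
    6))) (.cp 5 1 2 4 7 6 (.rf 6))) (.rf 6)))))) (.rf 23) (.gap (.rf 22))) (.rf 1) (.cmp 2 (.gap
    (.rf 1)) (.rf 1) (.gap (.rf 1)))) (.rf 1) (.cmp 4 (.cmp 6 (.gap (.rf 1)) (.rf 1) (.gap (.rf
    1))) (.rf 1) (.cmp 3 (.gap (.rf 1)) (.rf 1) (.gap (.rf 4)))))))) (.cmp 2 (.cmp 5 (.cmp 0 .mn
    (.rf 5) (.gap (.ru 16 (.lc 0 5 8 6 (.rf 6) (.rf 24))))) (.rf 23) (.cmp 1 (.gap (.rf 22))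
    (.rf 1) (.gap (.rf 1)))) (.rf 1) (.cmp 4 (.cmp 6 (.gap (.rf 1)) (.rf 1) (.gap (.rf 1))) (.rf
    1) (.cmp 3 (.gap (.rf 1)) (.rf 1) (.gap (.rf 4))))) (.gap (.ru 14 (.ru 18 (.cmp 6 (.cmp 1
    (.cmp 5 (.cmp 0 .mn (.rf 5) (.gap (.ru 15 (.ru 16 (.ru 17 (.lc 8 7 5 4 (.rf 24) (.lc 0 5 8 2
    (.pt 5 8 3 0 2 4 (.cp 0 8 5 2 3 1 (.cp 0 2 8 5 1 7 (.cp 8 5 2 4 7 6 (.cp 5 0 8 2 7 6 (.rf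
    6)))))) (.lc 8 7 2 4 (.rf 24) (.lc 1 7 2 4 (.rf 24) (.oc 8 1 4 5 7 2 (.oc 5 2 4 8 7 1 (.cp 8
    5 2 7 4 6 (.cp 8 1 5 2 3 0 (.cp 5 0 8 2 3 6 (.rf 6))))))))))))))) (.rf 23) (.gap (.rf 22)))
    (.rf 1) (.cmp 2 (.gap (.rf 1)) (.rf 1) (.gap (.rf 1)))) (.rf 1) (.cmp 4 (.cmp 7 (.gap (.rf
    1)) (.rf 1) (.gap (.rf 1))) (.rf 1) (.cmp 3 (.gap (.rf 1)) (.rf 1) (.gap (.rf 4)))))))))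
    (.ru 18 (.cmp 2 (.cmp 5 (.cmp 0 .mn (.rf 5) (.gap (.rf 27))) (.ru 15 (.cp 5 1 2 4 3 6 (.rf
    6))) (.cmp 1 (.gap (.rf 22)) (.rf 1) (.gap (.rf 1)))) (.rf 1) (.cmp 4 (.cmp 6 (.gap (.rf 1))
    (.rf 1) (.gap (.rf 1))) (.rf 1) (.cmp 3 (.gap (.rf 1)) (.rf 1) (.gap (.rf 4)))))) (.cmp 3
    (.gap (.cmp 6 (.cmp 1 (.cmp 5 (.cmp 0 .mn (.rf 5) (.gap (.rf 27))) (.rf 28) (.gap (.rf 29)))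
    (.rf 1) (.cmp 2 (.gap (.rf 1)) (.rf 1) (.gap (.rf 1)))) (.rf 1) (.cmp 7 (.cmp 4 (.gap (.rf
    1)) (.rf 1) (.gap (.rf 1))) (.rf 1) (.cmp 3 (.gap (.rf 1)) (.rf 1) (.gap (.rf 4)))))) (.cmp
    2 (.cmp 5 (.cmp 0 .mn (.rf 1) (.gap (.rf 1))) (.rf 1) (.cmp 1 (.gap (.rf 1)) (.rf 1) (.gap
    (.rf 1)))) (.rf 1) (.cmp 4 (.cmp 6 (.gap (.rf 1)) (.rf 1) (.gap (.rf 1))) (.rf 1) (.cmp 3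
    (.gap (.rf 1)) (.rf 1) (.gap (.rf 1))))) (.gap (.cmp 6 (.cmp 1 (.cmp 5 (.cmp 0 .mn (.rf 1)
    (.gap (.rf 1))) (.rf 1) (.gap (.rf 1))) (.rf 1) (.cmp 2 (.gap (.rf 26)) (.rf 5) (.gap (.rf
    4)))) (.rf 4) (.cmp 3 (.cmp 4 (.gap (.rf 4)) (.rf 4) (.gap (.rf 4))) (.rf 1) (.cmp 7 (.gap
    (.rf 1)) (.rf 1) (.gap (.rf 1))))))))

/-- Part of a certificate. -/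
def t00_10 : Tr :=
    (.cmp 2 (.cmp 5 (.cmp 0 .mn (.ru 14 (.ru 18 (.lc 0 1 5 4 (.k5 5 1 2 0 4 (.pt 6 1 3 0 4 2
    (.cp 5 0 1 2 4 6 (.rf 6)))) (.k5 0 2 4 5 6 (.rf 6))))) (.gap (.ru 14 (.ru 18 (.lc 0 5 7 6
    (.rf 6) (.lc 7 1 5 4 (.cp 5 1 2 4 7 6 (.rf 6)) (.pt 2 7 1 5 4 6 (.cp 7 4 5 2 6 0 (.cp 5 7 0
    2 4 6 (.rf 6)))))))))) (.ru 14 (.rf 6)) (.cmp 1 (.gap (.ru 14 (.ru 18 (.lc 5 1 7 6 (.cmp 2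
    (.cmp 7 (.cmp 5 (.cmp 0 .mn (.rf 1) (.gap (.rf 1))) (.rf 1) (.gap (.rf 1))) (.rf 1) (.cmp 1
    (.gap (.rf 1)) (.rf 1) (.gap (.rf 22)))) (.rf 22) (.cmp 6 (.cmp 4 (.gap (.rf 22)) (.rf 22)
    (.gap (.ru 16 (.lc 0 2 7 8 (.lc 0 2 1 6 (.k5 0 5 1 7 2 (.k5 7 1 2 5 6 (.rf 6))) (.oc 5 6 2 0
    7 1 (.rf 6))) (.k5 7 1 2 5 6 (.rf 6)))))) (.lc 0 2 7 6 (.lc 0 2 1 6 (.k5 0 5 1 7 2 (.k5 7 1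
    2 5 6 (.rf 6))) (.oc 5 6 2 0 7 1 (.rf 6))) (.k5 7 1 2 5 6 (.rf 6))) (.cmp 3 (.gap (.lc 0 2 7
    6 (.lc 0 2 1 6 (.k5 0 5 1 7 2 (.k5 7 1 2 5 6 (.rf 6))) (.oc 5 6 2 0 7 1 (.rf 6))) (.k5 7 1 2
    5 6 (.rf 6)))) (.rf 1) (.gap (.rf 1))))) (.rf 6))))) (.ru 18 (.eq 1 1)) (.gap (.ru 14 (.ru
    18 (.lc 5 2 7 6 (.cmp 2 (.cmp 1 (.cmp 5 (.cmp 0 .mn (.ru 16 (.lc 0 7 5 4 (.rf 24) (.cp 5 0 2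
    4 7 6 (.rf 6)))) (.gap (.ru 15 (.ru 16 (.ru 17 (.lc 8 7 5 4 (.rf 24) (.lc 8 4 1 3 (.pt 2 3 1
    8 4 6 (.cp 8 1 2 3 7 6 (.cp 8 6 2 4 7 5 (.cp 5 8 2 4 7 6 (.rf 6))))) (.cp 5 1 2 4 7 6 (.rf
    6))))))))) (.rf 23) (.gap (.rf 22))) (.rf 1) (.cmp 7 (.gap (.rf 1)) (.rf 1) (.gap (.rf 1))))
    (.rf 1) (.cmp 6 (.cmp 4 (.gap (.rf 1)) (.rf 1) (.gap (.rf 1))) (.rf 1) (.cmp 3 (.gap (.rf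
    1)) (.rf 1) (.gap (.rf 26))))) (.rf 6))))))) (.cmp 2 (.cmp 5 (.cmp 0 .mn (.rf 24) (.gap (.ru
    15 (.ru 17 (.lc 0 5 8 2 (.lc 0 5 8 3 (.lc 8 2 5 4 (.rf 24) (.pt 5 8 3 0 2 4 (.cp 8 5 2 4 3 6
    (.cp 5 0 8 2 3 6 (.rf 6))))) (.rf 24)) (.rf 24)))))) (.rf 23) (.cmp 1 (.gap (.rf 22)) (.rf
    1) (.gap (.rf 1)))) (.rf 1) (.cmp 6 (.cmp 4 (.gap (.rf 1)) (.rf 1) (.gap (.rf 1))) (.rf 1)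
    (.cmp 3 (.gap (.rf 1)) (.rf 1) (.gap (.rf 4))))) (.cmp 6 (.cmp 4 (.gap (.ru 14 (.ru 18 (.lc
    5 4 7 6 (.cmp 7 (.cmp 1 (.cmp 5 (.cmp 0 .mn (.rf 5) (.gap (.ru 15 (.ru 16 (.ru 17 (.lc 8 7 5
    4 (.rf 24) (.lc 8 4 1 3 (.pt 2 3 1 8 4 6 (.cp 8 1 2 3 7 6 (.cp 8 6 2 4 7 5 (.cp 5 8 2 4 7 6
    (.rf 6))))) (.cp 5 1 2 4 7 6 (.rf 6))))))))) (.rf 23) (.gap (.rf 22))) (.rf 1) (.cmp 2 (.gap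
    (.rf 1)) (.rf 1) (.gap (.rf 1)))) (.rf 1) (.cmp 6 (.cmp 4 (.gap (.rf 1)) (.rf 1) (.gap (.rf
    1))) (.rf 1) (.cmp 3 (.gap (.rf 1)) (.rf 1) (.gap (.rf 4))))) (.rf 6))))) (.ru 18 (.lc 5 4 1
    3 (.cp 5 2 1 4 0 3 (.cp 1 5 2 4 3 6 (.cp 6 1 2 4 3 5 (.rf 6)))) (.cp 5 1 2 4 3 6 (.rf 6))))
    (.gap (.cmp 4 (.cmp 1 (.cmp 5 (.cmp 0 .mn (.rf 5) (.gap (.rf 27))) (.rf 28) (.gap (.rf 29)))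
    (.rf 1) (.cmp 2 (.gap (.rf 1)) (.rf 1) (.gap (.rf 1)))) (.rf 1) (.cmp 6 (.cmp 7 (.gap (.rf
    1)) (.rf 1) (.gap (.rf 1))) (.rf 1) (.cmp 3 (.gap (.rf 1)) (.rf 1) (.gap (.rf 4))))))) (.cmp
    2 (.cmp 5 (.cmp 0 .mn (.rf 5) (.gap (.rf 27))) (.rf 28) (.cmp 1 (.gap (.rf 29)) (.rf 1)
    (.gap (.rf 1)))) (.rf 1) (.cmp 6 (.cmp 4 (.gap (.rf 1)) (.rf 1) (.gap (.rf 1))) (.rf 1)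
    (.cmp 3 (.gap (.rf 1)) (.rf 1) (.gap (.rf 4))))) (.cmp 3 (.gap (.cmp 4 (.cmp 1 (.cmp 5 (.cmp
    0 .mn (.rf 5) (.gap (.rf 27))) (.rf 28) (.gap (.rf 29))) (.rf 1) (.cmp 2 (.gap (.rf 1)) (.rf
    1) (.gap (.rf 1)))) (.rf 1) (.cmp 7 (.cmp 6 (.gap (.rf 1)) (.rf 1) (.gap (.rf 1))) (.rf 1)
    (.cmp 3 (.gap (.rf 1)) (.rf 1) (.gap (.rf 4)))))) (.cmp 2 (.cmp 5 (.cmp 0 .mn (.rf 1) (.gap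
    (.rf 1))) (.rf 1) (.cmp 1 (.gap (.rf 1)) (.rf 1) (.gap (.rf 1)))) (.rf 1) (.cmp 6 (.cmp 4
    (.gap (.rf 1)) (.rf 1) (.gap (.rf 1))) (.rf 1) (.cmp 3 (.gap (.rf 1)) (.rf 1) (.gap (.rf
    1))))) (.gap (.cmp 4 (.cmp 1 (.cmp 5 (.cmp 0 .mn (.rf 1) (.gap (.rf 1))) (.rf 1) (.gap (.rf
    1))) (.rf 1) (.cmp 2 (.gap (.rf 26)) (.rf 5) (.gap (.rf 4)))) (.rf 4) (.cmp 3 (.cmp 6 (.gap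
    (.rf 4)) (.rf 4) (.gap (.rf 4))) (.rf 1) (.cmp 7 (.gap (.rf 1)) (.rf 1) (.gap (.rf
    1)))))))))

/-- Part of a certificate. -/
def t00_11 : Tr :=
    (.cmp 2 (.cmp 5 (.cmp 0 .mn (.ru 14 (.ru 18 (.lc 0 1 5 4 (.cp 5 1 0 2 4 6 (.rf 6)) (.k5 0 2
    4 5 6 (.rf 6))))) (.gap (.ru 14 (.ru 18 (.lc 0 5 7 6 (.rf 6) (.lc 0 3 4 6 (.k5 0 2 4 5 6
    (.rf 6)) (.pt 0 4 5 2 6 3 (.cp 0 4 5 2 3 1 (.cp 5 1 0 2 7 6 (.rf 6)))))))))) (.ru 14 (.rf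
    6)) (.cmp 1 (.gap (.ru 14 (.ru 18 (.lc 5 1 7 6 (.cmp 2 (.cmp 7 (.cmp 5 (.cmp 0 .mn (.rf 1)
    (.gap (.rf 1))) (.rf 1) (.gap (.rf 1))) (.rf 1) (.cmp 1 (.gap (.rf 1)) (.rf 1) (.gap (.rf
    22)))) (.rf 22) (.cmp 3 (.cmp 4 (.gap (.rf 22)) (.rf 22) (.gap (.ru 15 (.ru 16 (.ru 17 (.lc
    5 4 7 8 (.lc 5 4 1 3 (.pt 3 2 8 4 6 1 (.cp 1 2 3 6 5 4 (.cp 1 6 2 4 7 8 (.cp 2 4 5 1 8 7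
    (.cp 4 1 5 2 8 7 (.cp 6 7 1 2 4 5 (.rf 6))))))) (.k5 1 2 4 5 6 (.rf 6))) (.rf 24))))))) (.rf
    1) (.cmp 6 (.gap (.rf 1)) (.rf 1) (.gap (.rf 1))))) (.rf 6))))) (.ru 18 (.eq 1 1)) (.gap
    (.ru 14 (.ru 18 (.lc 5 2 7 6 (.cmp 2 (.cmp 1 (.cmp 5 (.cmp 0 .mn (.ru 16 (.lc 0 7 5 4 (.rf
    24) (.cp 5 0 2 4 7 6 (.rf 6)))) (.gap (.ru 15 (.ru 16 (.ru 17 (.lc 8 7 5 4 (.rf 24) (.lc 0 5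
    8 3 (.pt 5 8 3 0 2 4 (.cp 0 8 5 2 3 1 (.cp 0 2 8 5 1 7 (.cp 8 5 2 4 7 6 (.cp 5 0 8 7 2 6
    (.rf 6)))))) (.cp 5 8 2 4 7 6 (.rf 6))))))))) (.rf 23) (.gap (.rf 22))) (.rf 1) (.cmp 7
    (.gap (.rf 1)) (.rf 1) (.gap (.rf 1)))) (.rf 1) (.cmp 3 (.cmp 4 (.gap (.rf 1)) (.rf 1) (.gap
    (.rf 1))) (.rf 1) (.cmp 6 (.gap (.rf 26)) (.rf 26) (.gap (.rf 26))))) (.rf 6))))))) (.cmp 2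
    (.cmp 5 (.cmp 0 .mn (.rf 24) (.gap (.ru 15 (.ru 17 (.lc 0 5 8 2 (.lc 0 5 8 3 (.lc 8 2 5 4
    (.rf 24) (.pt 5 8 3 0 2 4 (.cp 8 5 2 4 3 6 (.cp 5 0 8 2 3 6 (.rf 6))))) (.rf 24)) (.rf
    24)))))) (.rf 23) (.cmp 1 (.gap (.rf 22)) (.rf 1) (.gap (.rf 1)))) (.rf 1) (.cmp 3 (.cmp 4
    (.gap (.rf 1)) (.rf 1) (.gap (.rf 1))) (.rf 1) (.cmp 6 (.gap (.rf 4)) (.rf 4) (.gap (.rf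
    4))))) (.cmp 3 (.cmp 4 (.gap (.ru 14 (.ru 18 (.lc 5 4 7 6 (.cmp 7 (.cmp 1 (.cmp 5 (.cmp 0
    .mn (.rf 5) (.gap (.ru 15 (.ru 16 (.ru 17 (.lc 8 7 5 4 (.rf 24) (.lc 0 5 8 3 (.pt 5 8 3 0 2
    4 (.cp 0 8 5 2 3 1 (.cp 0 2 8 5 1 7 (.cp 8 5 2 4 7 6 (.cp 5 0 8 2 7 6 (.rf 6)))))) (.cp 5 8
    2 4 7 6 (.rf 6))))))))) (.rf 23) (.gap (.rf 22))) (.rf 1) (.cmp 2 (.gap (.rf 1)) (.rf 1)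
    (.gap (.rf 1)))) (.rf 1) (.cmp 3 (.cmp 4 (.gap (.rf 1)) (.rf 1) (.gap (.rf 1))) (.rf 1)
    (.cmp 6 (.gap (.rf 4)) (.rf 4) (.gap (.rf 4))))) (.rf 6))))) (.ru 18 (.lc 5 4 1 3 (.cp 5 2 1
    4 0 3 (.cp 1 5 2 4 3 6 (.cp 6 1 2 4 3 5 (.rf 6)))) (.cp 5 1 2 4 3 6 (.rf 6)))) (.gap (.cmp 4
    (.cmp 1 (.cmp 5 (.cmp 0 .mn (.rf 5) (.gap (.rf 27))) (.rf 28) (.gap (.rf 29))) (.rf 1) (.cmp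
    2 (.gap (.rf 1)) (.rf 1) (.gap (.rf 1)))) (.rf 1) (.cmp 3 (.cmp 7 (.gap (.rf 1)) (.rf 1)
    (.gap (.rf 1))) (.rf 1) (.cmp 6 (.gap (.rf 4)) (.rf 4) (.gap (.rf 4))))))) (.cmp 2 (.cmp 5
    (.cmp 0 .mn (.rf 1) (.gap (.rf 1))) (.rf 1) (.cmp 1 (.gap (.rf 1)) (.rf 1) (.gap (.rf 1))))
    (.rf 1) (.cmp 3 (.cmp 4 (.gap (.rf 1)) (.rf 1) (.gap (.rf 1))) (.rf 1) (.cmp 6 (.gap (.rf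
    1)) (.rf 1) (.gap (.rf 1))))) (.cmp 6 (.gap (.cmp 4 (.cmp 1 (.cmp 5 (.cmp 0 .mn (.rf 1)
    (.gap (.rf 1))) (.rf 1) (.gap (.rf 1))) (.rf 1) (.cmp 2 (.gap (.rf 26)) (.rf 5) (.gap (.rf
    4)))) (.rf 4) (.cmp 7 (.cmp 3 (.gap (.rf 4)) (.rf 1) (.gap (.rf 1))) (.rf 1) (.cmp 6 (.gap
    (.rf 1)) (.rf 1) (.gap (.rf 1)))))) (.cmp 2 (.cmp 5 (.cmp 0 .mn (.rf 1) (.gap (.rf 1))) (.rf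
    1) (.cmp 1 (.gap (.rf 1)) (.rf 1) (.gap (.rf 26)))) (.rf 5) (.cmp 3 (.cmp 4 (.gap (.rf 4))
    (.rf 4) (.gap (.rf 4))) (.rf 1) (.cmp 6 (.gap (.rf 1)) (.rf 1) (.gap (.rf 1))))) (.gap (.cmp
    4 (.cmp 1 (.cmp 5 (.cmp 0 .mn (.rf 1) (.gap (.rf 1))) (.rf 1) (.gap (.rf 1))) (.rf 1) (.cmp
    2 (.gap (.rf 26)) (.rf 5) (.gap (.rf 4)))) (.rf 4) (.cmp 6 (.cmp 3 (.gap (.rf 4)) (.rf 1)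
    (.gap (.rf 1))) (.rf 1) (.cmp 7 (.gap (.rf 1)) (.rf 1) (.gap (.rf 1)))))))))

/-- Part of a certificate. -/
def t00_12 : Tr :=
    (.cmp 3 (.cmp 4 (.gap (.ru 12 (.ru 13 (.lc 5 4 6 3 (.rf 6) (.cmp 2 (.cmp 5 (.cmp 0 .mn (.ru
    14 (.ru 18 (.lc 0 2 5 3 (.k5 0 1 3 5 2 (.k5 0 2 3 5 6 (.rf 6))) (.k5 0 5 1 2 3 (.k5 0 2 3 5
    6 (.rf 6)))))) (.gap (.ru 14 (.ru 18 (.lc 0 5 7 6 (.rf 6) (.cmp 2 (.cmp 5 (.cmp 7 (.cmp 0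
    .mn (.rf 1) (.gap (.rf 1))) (.rf 1) (.gap (.rf 1))) (.rf 1) (.cmp 1 (.gap (.rf 1)) (.rf 1)
    (.gap (.lc 0 2 5 3 (.cp 0 3 2 6 5 4 (.cp 2 6 0 4 3 5 (.cp 6 0 2 4 3 5 (.rf 6)))) (.lc 5 4 1
    3 (.oc 5 6 3 0 2 4 (.rf 6)) (.cp 5 1 2 4 7 6 (.rf 6))))))) (.ru 16 (.ru 17 (.cp 0 3 2 6 5 7
    (.cp 0 3 2 6 5 4 (.cp 7 0 2 6 5 4 (.cp 5 0 7 4 3 6 (.rf 6))))))) (.cmp 4 (.cmp 6 (.gap (.lc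
    0 2 5 3 (.cp 0 3 2 6 5 4 (.cp 2 6 0 4 3 5 (.cp 6 0 2 4 3 5 (.rf 6)))) (.lc 5 4 1 3 (.oc 5 6
    3 0 2 4 (.rf 6)) (.cp 5 1 2 4 7 6 (.rf 6))))) (.lc 0 2 5 3 (.cp 0 3 2 6 5 4 (.cp 2 6 0 4 3 5
    (.cp 6 0 2 4 3 5 (.rf 6)))) (.lc 5 4 1 3 (.oc 5 6 3 0 2 4 (.rf 6)) (.cp 5 1 2 4 7 6 (.rf
    6)))) (.gap (.lc 0 2 5 3 (.cp 0 3 2 6 5 4 (.cp 2 6 0 4 3 5 (.cp 6 0 2 4 3 5 (.rf 6)))) (.lc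
    5 4 1 3 (.oc 5 6 3 0 2 4 (.rf 6)) (.cp 5 1 2 4 7 6 (.rf 6)))))) (.rf 27) (.cmp 3 (.gap (.rf
    27)) (.rf 1) (.gap (.rf 1)))))))))) (.ru 14 (.rf 6)) (.cmp 1 (.gap (.ru 14 (.ru 18 (.lc 5 1
    7 6 (.lc 7 6 2 4 (.cp 7 1 2 6 5 4 (.cp 2 6 7 1 4 5 (.cp 6 7 1 2 4 5 (.rf 6)))) (.pt 4 1 5 7
    6 2 (.cp 5 1 7 4 3 6 (.rf 6)))) (.rf 6))))) (.ru 18 (.eq 1 1)) (.gap (.ru 14 (.ru 18 (.cmp 2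
    (.cmp 1 (.cmp 5 (.cmp 0 .mn (.ru 16 (.lc 0 7 5 4 (.rf 24) (.lc 7 6 2 4 (.pt 2 5 4 0 7 1 (.cp
    5 0 7 2 4 6 (.rf 6))) (.rf 24)))) (.gap (.ru 15 (.ru 16 (.ru 17 (.lc 8 7 5 4 (.rf 24) (.lc 0
    5 8 2 (.pt 5 8 3 0 2 4 (.cp 0 8 5 2 3 1 (.cp 0 2 8 5 1 7 (.cp 8 5 2 4 7 6 (.cp 5 0 8 7 2 6
    (.rf 6)))))) (.lc 7 6 2 4 (.pt 2 5 4 8 7 1 (.cp 8 5 7 2 4 6 (.cp 8 5 7 2 3 1 (.cp 8 1 5 2 3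
    0 (.cp 5 0 8 2 3 6 (.rf 6)))))) (.rf 24))))))))) (.rf 23) (.gap (.rf 22))) (.rf 1) (.cmp 7
    (.gap (.rf 1)) (.rf 1) (.gap (.rf 1)))) (.rf 1) (.cmp 4 (.cmp 6 (.gap (.rf 1)) (.rf 1) (.gap
    (.rf 1))) (.rf 1) (.cmp 3 (.gap (.rf 1)) (.rf 1) (.gap (.rf 26)))))))))) (.cmp 2 (.cmp 5
    (.cmp 0 .mn (.rf 24) (.gap (.ru 15 (.ru 17 (.lc 0 5 8 2 (.lc 8 2 5 4 (.rf 24) (.pt 5 8 3 0 2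
    4 (.cp 8 5 2 4 3 6 (.cp 5 0 8 2 3 6 (.rf 6))))) (.rf 24)))))) (.rf 23) (.cmp 1 (.gap (.rf
    22)) (.rf 1) (.gap (.rf 1)))) (.rf 1) (.cmp 4 (.cmp 6 (.gap (.rf 1)) (.rf 1) (.gap (.rf 1)))
    (.rf 1) (.cmp 3 (.gap (.rf 1)) (.rf 1) (.gap (.rf 4))))) t00_9))))) (.rf 6) (.gap (.ru 12
    (.ru 13 (.lc 5 4 2 6 t00_10 (.rf 6)))))) (.ru 13 (.lc 5 4 1 3 (.lc 5 4 2 3 (.cmp 2 (.cmp 5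
    (.cmp 0 .mn (.ru 18 (.k5 0 1 2 5 3 (.rf 6))) (.gap (.ru 14 (.ru 18 (.lc 0 5 7 3 (.rf 6) (.lc
    7 1 5 4 (.k5 1 2 4 5 3 (.rf 6)) (.oc 5 3 4 7 1 2 (.rf 6)))))))) (.ru 14 (.rf 6)) (.cmp 1
    (.gap (.ru 14 (.ru 18 (.lc 5 1 7 3 (.lc 0 2 7 3 (.oc 5 3 2 0 7 1 (.rf 6)) (.k5 7 1 2 5 3
    (.rf 6))) (.rf 6))))) (.ru 18 (.eq 1 1)) (.gap (.ru 14 (.ru 18 (.lc 5 2 7 3 (.lc 0 2 7 3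
    (.oc 5 3 2 0 7 1 (.rf 6)) (.k5 1 7 2 5 3 (.rf 6))) (.rf 6))))))) (.cmp 2 (.cmp 5 (.cmp 0 .mn
    (.rf 24) (.gap (.ru 17 (.lc 0 5 8 3 (.rf 6) (.rf 24))))) (.rf 23) (.cmp 1 (.gap (.rf 22))
    (.rf 1) (.gap (.rf 1)))) (.rf 1) (.cmp 3 (.cmp 4 (.gap (.rf 1)) (.rf 1) (.gap (.rf 1))) (.rf
    1) (.gap (.rf 4)))) (.cmp 3 (.cmp 4 (.gap (.ru 14 (.ru 18 (.lc 5 4 7 3 (.lc 0 2 5 7 (.k5 1 2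
    7 5 3 (.rf 6)) (.oc 5 3 7 0 2 1 (.rf 6))) (.rf 6))))) (.ru 18 (.k5 1 2 4 5 3 (.rf 6))) (.gap
    (.cmp 2 (.cmp 5 (.cmp 0 .mn (.rf 5) (.gap (.rf 27))) (.rf 28) (.cmp 1 (.gap (.rf 29)) (.rf
    1) (.gap (.rf 1)))) (.rf 1) (.cmp 7 (.cmp 4 (.gap (.rf 1)) (.rf 1) (.gap (.rf 1))) (.rf 1)
    (.cmp 3 (.gap (.rf 1)) (.rf 1) (.gap (.rf 4))))))) (.cmp 2 (.cmp 5 (.cmp 0 .mn (.rf 1) (.gap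
    (.rf 1))) (.rf 1) (.cmp 1 (.gap (.rf 1)) (.rf 1) (.gap (.rf 1)))) (.rf 1) (.cmp 3 (.cmp 4
    (.gap (.rf 1)) (.rf 1) (.gap (.rf 1))) (.rf 1) (.gap (.rf 1)))) (.gap (.cmp 2 (.cmp 5 (.cmp
    0 .mn (.rf 1) (.gap (.rf 1))) (.rf 1) (.cmp 1 (.gap (.rf 1)) (.rf 1) (.gap (.rf 26)))) (.rf
    5) (.cmp 3 (.cmp 4 (.gap (.rf 4)) (.rf 4) (.gap (.rf 4))) (.rf 1) (.cmp 7 (.gap (.rf 1))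
    (.rf 1) (.gap (.rf 1)))))))) (.rf 6)) (.rf 6))) (.gap (.ru 12 (.ru 13 (.lc 5 4 2 6 t00_11
    (.rf 6))))))

/-- Part of a certificate. -/
def t00_13 : Tr :=
    (.cmp 2 (.cmp 5 (.cmp 0 .mn (.rf 6) (.gap (.ru 12 (.ru 13 (.lc 0 5 6 2 (.lc 0 5 6 3 (.lc 6 2
    5 4 (.rf 6) (.pt 5 6 3 0 2 4 (.rf 6))) (.rf 6)) (.rf 6)))))) (.rf 7) (.cmp 1 (.gap (.ru 12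
    (.ru 13 (.lc 5 1 6 2 (.rf 6) (.lc 5 1 6 3 (.rf 6) (.lc 5 4 6 3 (.rf 6) (.lc 5 4 1 3 (.oc 5 6
    3 1 2 4 (.rf 6)) (.k5 1 2 4 5 6 (.rf 6))))))))) (.rf 6) (.gap (.ru 12 (.ru 13 (.lc 5 4 6 3
    (.rf 6) (.cmp 6 (.cmp 5 (.cmp 0 .mn (.ru 14 (.ru 18 (.lc 0 2 5 3 (.k5 0 1 3 5 2 (.k5 0 2 3 5
    6 (.rf 6))) (.k5 0 5 1 2 3 (.k5 0 2 3 5 6 (.rf 6)))))) (.gap (.ru 14 (.lc 0 5 7 6 (.rf 6)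
    (.lc 0 2 5 3 (.cp 0 3 6 2 5 4 (.cp 6 2 0 4 3 5 (.rf 6))) (.pt 6 5 3 0 2 4 (.rf 6))))))) (.ru
    14 (.rf 6)) (.cmp 1 (.gap (.ru 14 (.ru 18 (.lc 5 1 7 6 (.cmp 6 (.cmp 7 (.cmp 5 (.cmp 0 .mn
    (.rf 1) (.gap (.rf 1))) (.rf 1) (.gap (.rf 1))) (.rf 1) (.cmp 1 (.gap (.rf 1)) (.rf 1) (.gap
    (.rf 22)))) (.rf 22) (.cmp 4 (.cmp 2 (.gap (.rf 22)) (.rf 22) (.gap (.rf 22))) (.rf 22)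
    (.cmp 3 (.gap (.ru 15 (.ru 16 (.lc 5 4 7 8 (.lc 5 4 1 3 (.pt 5 6 7 1 3 4 (.rf 6)) (.cp 1 6 2
    4 7 8 (.cp 6 1 2 4 7 8 (.cp 6 8 7 1 4 5 (.rf 6))))) (.rf 24))))) (.rf 1) (.gap (.rf 1)))))
    (.rf 6))))) (.ru 18 (.eq 1 1)) (.gap (.ru 14 (.ru 18 (.cmp 6 (.cmp 1 (.cmp 5 (.cmp 0 .mn
    (.ru 16 (.lc 0 7 5 4 (.rf 24) (.lc 5 7 1 2 (.pt 2 5 4 0 7 1 (.cp 5 0 7 2 4 6 (.rf 6))) (.cp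
    5 0 2 4 7 6 (.rf 6))))) (.gap (.ru 16 (.ru 17 (.lc 8 7 5 4 (.rf 24) (.lc 8 4 1 3 (.pt 8 5 7
    1 3 4 (.cp 5 8 4 3 7 6 (.rf 6))) (.lc 5 7 1 2 (.pt 4 7 5 1 2 6 (.cp 5 1 7 4 3 6 (.rf 6)))
    (.cp 5 1 2 4 7 6 (.rf 6))))))))) (.rf 23) (.gap (.rf 22))) (.rf 1) (.cmp 7 (.gap (.rf 1))
    (.rf 1) (.gap (.rf 1)))) (.rf 1) (.cmp 4 (.cmp 2 (.gap (.rf 1)) (.rf 1) (.gap (.rf 1))) (.rf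
    1) (.cmp 3 (.gap (.rf 1)) (.rf 1) (.gap (.rf 26)))))))))) (.cmp 6 (.cmp 5 (.cmp 0 .mn (.rf
    24) (.gap (.ru 16 (.lc 0 5 8 6 (.rf 6) (.rf 24))))) (.rf 23) (.cmp 1 (.gap (.rf 22)) (.rf 1)
    (.gap (.rf 1)))) (.rf 1) (.cmp 4 (.cmp 2 (.gap (.rf 1)) (.rf 1) (.gap (.rf 1))) (.rf 1)
    (.cmp 3 (.gap (.rf 1)) (.rf 1) (.gap (.rf 26))))) t00_8))))))) (.ru 12 (.lc 5 4 2 3 (.rf 6)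
    (.cmp 2 (.cmp 5 (.cmp 0 .mn (.ru 18 (.k5 0 1 3 5 2 (.rf 6))) (.gap (.ru 14 (.ru 18 (.lc 0 5
    7 2 (.rf 6) (.lc 0 5 7 1 (.oc 0 1 2 7 5 3 (.oc 7 3 2 0 5 1 (.oc 5 2 1 0 7 3 (.rf 6)))) (.k5
    0 1 3 5 2 (.rf 6)))))))) (.ru 14 (.rf 6)) (.cmp 1 (.gap (.ru 14 (.ru 18 (.lc 5 1 7 2 (.cmp 1
    (.cmp 5 (.cmp 0 .mn (.rf 1) (.gap (.rf 1))) (.rf 1) (.cmp 7 (.gap (.rf 1)) (.rf 1) (.gap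
    (.rf 1)))) (.rf 1) (.cmp 4 (.cmp 2 (.gap (.rf 22)) (.rf 22) (.gap (.rf 22))) (.rf 22) (.cmp
    3 (.gap (.ru 15 (.ru 16 (.ru 17 (.lc 5 4 2 8 (.rf 6) (.oc 5 2 8 7 1 3 (.rf 6))))))) (.rf 1)
    (.gap (.rf 1))))) (.rf 6))))) (.ru 18 (.eq 1 1)) (.gap (.ru 14 (.ru 18 (.cmp 7 (.cmp 5 (.cmp
    0 .mn (.ru 16 (.lc 0 7 5 4 (.rf 24) (.pt 2 5 4 0 7 1 (.rf 6)))) (.gap (.ru 15 (.ru 16 (.lc 0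
    5 8 2 (.rf 6) (.lc 8 7 5 4 (.rf 24) (.pt 2 5 4 8 7 1 (.rf 6)))))))) (.rf 23) (.cmp 1 (.gap
    (.rf 22)) (.rf 1) (.gap (.rf 1)))) (.rf 1) (.cmp 4 (.cmp 2 (.gap (.rf 1)) (.rf 1) (.gap (.rf
    1))) (.rf 1) (.cmp 3 (.gap (.rf 1)) (.rf 1) (.gap (.rf 26)))))))))) (.cmp 2 (.cmp 5 (.cmp 0
    .mn (.rf 24) (.gap (.ru 15 (.lc 0 5 8 2 (.rf 6) (.rf 24))))) (.rf 23) (.cmp 1 (.gap (.rf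
    22)) (.rf 1) (.gap (.rf 1)))) (.rf 1) (.cmp 3 (.cmp 4 (.gap (.rf 1)) (.rf 1) (.gap (.rf 1)))
    (.rf 1) (.gap (.rf 4)))) (.cmp 3 (.cmp 4 (.gap (.ru 14 (.ru 18 (.cmp 2 (.cmp 5 (.cmp 0 .mn
    (.rf 5) (.gap (.ru 15 (.ru 16 (.ru 17 (.lc 0 5 8 2 (.rf 6) (.lc 8 7 5 4 (.rf 24) (.oc 5 2 3
    8 7 1 (.rf 6))))))))) (.rf 23) (.cmp 1 (.gap (.rf 22)) (.rf 1) (.gap (.rf 1)))) (.rf 1)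
    (.cmp 4 (.cmp 7 (.gap (.rf 1)) (.rf 1) (.gap (.rf 1))) (.rf 1) (.cmp 3 (.gap (.rf 1)) (.rf
    1) (.gap (.rf 4)))))))) (.ru 18 (.lc 0 2 1 4 (.k5 0 1 3 5 2 (.rf 6)) (.oc 5 2 3 0 4 1 (.rf
    6)))) (.gap (.ru 14 (.ru 18 (.lc 5 4 2 7 (.rf 6) (.lc 0 2 1 7 (.k5 0 1 3 5 2 (.rf 6)) (.oc 5
    2 3 0 7 1 (.rf 6)))))))) (.cmp 2 (.cmp 5 (.cmp 0 .mn (.rf 1) (.gap (.rf 1))) (.rf 1) (.cmp 1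
    (.gap (.rf 1)) (.rf 1) (.gap (.rf 1)))) (.rf 1) (.cmp 3 (.cmp 4 (.gap (.rf 1)) (.rf 1) (.gap
    (.rf 1))) (.rf 1) (.gap (.rf 1)))) (.gap (.ru 14 (.ru 18 (.lc 5 4 2 7 (.rf 6) (.lc 0 2 1 7
    (.k5 0 1 3 5 2 (.rf 6)) (.oc 5 2 7 0 3 1 (.rf 6))))))))))) t00_12)

/-- Part of a certificate. -/
def t00_14 : Tr :=
    (.cmp 6 (.cmp 1 (.cmp 0 .mn (.ru 14 (.lc 2 4 6 3 (.oc 1 6 3 0 2 4 (.rf 6)) (.k5 0 2 3 1 6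
    (.rf 6)))) (.gap (.ru 14 (.lc 0 1 7 6 (.rf 6) (.lc 2 4 6 3 (.oc 1 6 3 0 2 4 (.rf 6)) (.k5 0
    2 3 1 6 (.rf 6))))))) (.ru 18 (.eq 1 1)) (.cmp 2 (.gap (.ru 18 (.cmp 2 (.cmp 1 (.cmp 0 .mn
    (.ru 16 (.lc 0 7 1 4 (.rf 19) (.ru 20 (.k5 0 2 4 1 6 (.rf 6))))) (.gap (.ru 16 (.lc 8 7 1 4
    (.rf 19) (.ru 20 (.lc 2 4 6 3 (.oc 1 6 3 0 2 4 (.rf 6)) (.k5 0 2 3 1 6 (.rf 6)))))))) (.rf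
    1) (.cmp 7 (.gap (.rf 1)) (.rf 1) (.gap (.rf 1)))) (.rf 1) (.cmp 4 (.cmp 6 (.gap (.rf 1))
    (.rf 1) (.gap (.rf 1))) (.rf 1) (.cmp 3 (.gap (.rf 1)) (.rf 1) (.gap (.rf 26))))))) (.cmp 6
    (.cmp 1 (.cmp 0 .mn (.rf 19) (.gap (.ru 15 (.ru 17 (.lc 0 1 8 2 (.lc 8 2 1 4 (.rf 19) (.ru
    20 (.pt 1 8 3 0 2 4 (.cp 0 2 8 1 6 4 (.cp 8 0 2 4 3 6 (.cp 1 0 8 2 4 6 (.rf 6))))))) (.rf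
    19)))))) (.rf 1) (.cmp 2 (.gap (.rf 1)) (.rf 1) (.gap (.rf 1)))) (.rf 1) (.cmp 3 (.cmp 4
    (.gap (.rf 1)) (.rf 1) (.gap (.rf 1))) (.rf 1) (.gap (.rf 4)))) (.gap (.ru 14 (.ru 18 (.cmp
    7 (.cmp 1 (.cmp 0 .mn (.rf 5) (.gap (.ru 15 (.ru 16 (.ru 17 (.lc 8 7 1 4 (.rf 19) (.lc 0 1 8
    2 (.pt 1 8 3 0 2 4 (.cp 8 1 2 4 7 6 (.cp 1 0 8 2 3 6 (.rf 6)))) (.cp 1 8 2 4 7 6 (.rf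
    6))))))))) (.rf 1) (.cmp 2 (.gap (.rf 1)) (.rf 1) (.gap (.rf 1)))) (.rf 1) (.cmp 4 (.cmp 6
    (.gap (.rf 1)) (.rf 1) (.gap (.rf 1))) (.rf 1) (.cmp 3 (.gap (.rf 1)) (.rf 1) (.gap (.rf
    4)))))))))) (.ru 18 (.rf 6)) (.cmp 3 (.cmp 4 (.gap (.ru 14 (.ru 18 (.cmp 6 (.cmp 1 (.cmp 0
    .mn (.rf 5) (.gap (.ru 15 (.ru 16 (.ru 17 (.lc 8 7 1 4 (.rf 19) (.lc 0 1 8 2 (.pt 1 8 3 0 2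
    4 (.cp 8 1 2 4 7 6 (.cp 1 0 8 2 3 6 (.rf 6)))) (.cp 1 8 2 4 7 6 (.rf 6))))))))) (.rf 1)
    (.cmp 2 (.gap (.rf 1)) (.rf 1) (.gap (.rf 1)))) (.rf 1) (.cmp 4 (.cmp 7 (.gap (.rf 1)) (.rf
    1) (.gap (.rf 1))) (.rf 1) (.cmp 3 (.gap (.rf 1)) (.rf 1) (.gap (.rf 4)))))))) (.cmp 6 (.cmp
    1 (.cmp 0 .mn (.rf 5) (.gap (.rf 25))) (.rf 1) (.cmp 2 (.gap (.rf 1)) (.rf 1) (.gap (.rf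
    1)))) (.rf 1) (.cmp 3 (.cmp 4 (.gap (.rf 1)) (.rf 1) (.gap (.rf 1))) (.rf 1) (.gap (.rf
    4)))) (.gap (.cmp 6 (.cmp 1 (.cmp 0 .mn (.rf 5) (.gap (.rf 25))) (.rf 1) (.cmp 2 (.gap (.rf
    1)) (.rf 1) (.gap (.rf 1)))) (.rf 1) (.cmp 7 (.cmp 4 (.gap (.rf 1)) (.rf 1) (.gap (.rf 1)))
    (.rf 1) (.cmp 3 (.gap (.rf 1)) (.rf 1) (.gap (.rf 4))))))) (.cmp 6 (.cmp 1 (.cmp 0 .mn (.rf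
    1) (.gap (.rf 1))) (.rf 1) (.cmp 2 (.gap (.rf 1)) (.rf 1) (.gap (.rf 1)))) (.rf 1) (.cmp 3
    (.cmp 4 (.gap (.rf 1)) (.rf 1) (.gap (.rf 1))) (.rf 1) (.gap (.rf 1)))) (.gap (.cmp 6 (.cmp
    1 (.cmp 0 .mn (.rf 1) (.gap (.rf 1))) (.rf 1) (.cmp 2 (.gap (.rf 26)) (.rf 5) (.gap (.rf
    4)))) (.rf 4) (.cmp 3 (.cmp 4 (.gap (.rf 4)) (.rf 4) (.gap (.rf 4))) (.rf 1) (.cmp 7 (.gap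
    (.rf 1)) (.rf 1) (.gap (.rf 1))))))))

/-- Part of a certificate. -/
def t00_15 : Tr :=
    (.cmp 4 (.cmp 1 (.cmp 0 .mn (.ru 14 (.cmp 4 (.cmp 1 (.cmp 0 .mn (.rf 1) (.gap (.rf 1))) (.rf
    1) (.cmp 2 (.gap (.ru 15 (.ru 16 (.ru 17 (.lc 0 8 1 4 (.pt 8 1 3 0 2 4 (.cp 0 2 1 8 6 4 (.cp
    1 0 2 4 3 6 (.rf 6)))) (.k5 0 2 4 1 6 (.rf 6))))))) (.ru 17 (.k5 0 2 3 1 6 (.rf 6))) (.gap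
    (.rf 4)))) (.rf 4) (.cmp 3 (.cmp 6 (.gap (.rf 4)) (.rf 4) (.gap (.rf 4))) (.rf 1) (.gap (.rf
    1))))) (.gap (.ru 14 (.ru 18 (.lc 0 1 7 6 (.rf 6) (.cmp 2 (.cmp 7 (.cmp 0 .mn (.rf 1) (.gap
    (.rf 1))) (.rf 1) (.cmp 1 (.gap (.rf 1)) (.rf 1) (.gap (.lc 0 2 7 6 (.pt 1 6 7 0 2 4 (.rf
    6)) (.lc 7 2 1 3 (.k5 0 2 3 1 6 (.rf 6)) (.oc 0 7 3 1 2 6 (.pt 1 6 7 0 2 4 (.rf 6))))))))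
    (.ru 17 (.k5 0 2 3 1 6 (.rf 6))) (.cmp 6 (.cmp 4 (.gap (.ru 17 (.lc 2 4 8 3 (.oc 1 6 3 0 2 4
    (.rf 6)) (.k5 0 2 3 1 6 (.rf 6))))) (.rf 25) (.gap (.rf 25))) (.rf 25) (.cmp 3 (.gap (.rf
    25)) (.rf 1) (.gap (.rf 1)))))))))) (.ru 18 (.eq 1 1)) (.cmp 2 (.gap (.ru 14 (.ru 18 (.cmp 2
    (.cmp 1 (.cmp 0 .mn (.ru 16 (.lc 0 7 1 4 (.rf 19) (.ru 20 (.k5 0 2 4 1 6 (.rf 6))))) (.gap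
    (.ru 15 (.ru 16 (.ru 17 (.lc 8 7 1 4 (.rf 19) (.ru 20 (.lc 0 1 8 4 (.pt 1 8 3 0 2 4 (.cp 0 2
    8 1 6 7 (.cp 0 2 8 1 6 4 (.cp 8 0 2 4 7 6 (.cp 1 0 8 7 2 6 (.rf 6)))))) (.k5 0 2 4 1 6 (.rf
    6)))))))))) (.rf 1) (.cmp 7 (.gap (.rf 1)) (.rf 1) (.gap (.rf 1)))) (.rf 1) (.cmp 6 (.cmp 4
    (.gap (.rf 1)) (.rf 1) (.gap (.rf 1))) (.rf 1) (.cmp 3 (.gap (.rf 1)) (.rf 1) (.gap (.rf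
    26)))))))) (.cmp 4 (.cmp 1 (.cmp 0 .mn (.rf 19) (.gap (.ru 15 (.ru 17 (.lc 0 1 8 2 (.lc 8 2
    1 4 (.rf 19) (.ru 20 (.pt 1 8 3 0 2 4 (.cp 0 2 8 1 6 4 (.cp 8 0 2 4 3 6 (.cp 1 0 8 2 4 6
    (.rf 6))))))) (.rf 19)))))) (.rf 1) (.cmp 2 (.gap (.rf 1)) (.rf 1) (.gap (.rf 1)))) (.rf 1)
    (.cmp 3 (.cmp 6 (.gap (.rf 1)) (.rf 1) (.gap (.rf 1))) (.rf 1) (.gap (.rf 4)))) (.gap (.ru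
    14 (.ru 18 (.cmp 7 (.cmp 1 (.cmp 0 .mn (.rf 5) (.gap (.ru 15 (.ru 16 (.ru 17 (.lc 8 7 1 4
    (.rf 19) (.lc 0 1 8 2 (.pt 1 8 3 0 2 4 (.cp 8 1 2 4 7 6 (.cp 1 0 8 2 3 6 (.rf 6)))) (.cp 1 8
    2 4 7 6 (.rf 6))))))))) (.rf 1) (.cmp 2 (.gap (.rf 1)) (.rf 1) (.gap (.rf 1)))) (.rf 1)
    (.cmp 6 (.cmp 4 (.gap (.rf 1)) (.rf 1) (.gap (.rf 1))) (.rf 1) (.cmp 3 (.gap (.rf 1)) (.rf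
    1) (.gap (.rf 4)))))))))) (.cmp 4 (.cmp 1 (.cmp 0 .mn (.rf 5) (.gap (.rf 25))) (.rf 1) (.cmp
    2 (.gap (.rf 1)) (.rf 1) (.gap (.rf 1)))) (.rf 1) (.cmp 3 (.cmp 6 (.gap (.rf 1)) (.rf 1)
    (.gap (.rf 1))) (.rf 1) (.gap (.rf 4)))) (.cmp 3 (.cmp 6 (.gap (.cmp 4 (.cmp 1 (.cmp 0 .mn
    (.rf 5) (.gap (.rf 25))) (.rf 1) (.cmp 2 (.gap (.rf 1)) (.rf 1) (.gap (.rf 1)))) (.rf 1)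
    (.cmp 6 (.cmp 7 (.gap (.rf 1)) (.rf 1) (.gap (.rf 1))) (.rf 1) (.cmp 3 (.gap (.rf 1)) (.rf
    1) (.gap (.rf 4)))))) (.ru 18 (.rf 6)) (.gap (.cmp 4 (.cmp 1 (.cmp 0 .mn (.rf 5) (.gap (.rf
    25))) (.rf 1) (.cmp 2 (.gap (.rf 1)) (.rf 1) (.gap (.rf 1)))) (.rf 1) (.cmp 7 (.cmp 6 (.gap
    (.rf 1)) (.rf 1) (.gap (.rf 1))) (.rf 1) (.cmp 3 (.gap (.rf 1)) (.rf 1) (.gap (.rf 4)))))))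
    (.cmp 4 (.cmp 1 (.cmp 0 .mn (.rf 1) (.gap (.rf 1))) (.rf 1) (.cmp 2 (.gap (.rf 1)) (.rf 1)
    (.gap (.rf 1)))) (.rf 1) (.cmp 3 (.cmp 6 (.gap (.rf 1)) (.rf 1) (.gap (.rf 1))) (.rf 1)
    (.gap (.rf 1)))) (.gap (.cmp 4 (.cmp 1 (.cmp 0 .mn (.rf 1) (.gap (.rf 1))) (.rf 1) (.cmp 2
    (.gap (.rf 26)) (.rf 5) (.gap (.rf 4)))) (.rf 4) (.cmp 3 (.cmp 6 (.gap (.rf 4)) (.rf 4)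
    (.gap (.rf 4))) (.rf 1) (.cmp 7 (.gap (.rf 1)) (.rf 1) (.gap (.rf 1))))))))

/-- Part of a certificate. -/
def t00_16 : Tr :=
    (.cmp 6 (.cmp 1 (.cmp 0 .mn (.ru 14 (.ru 18 (.lc 0 2 5 3 (.k5 0 1 3 5 2 (.k5 0 2 3 5 6 (.rf
    6))) (.k5 0 1 5 2 3 (.k5 0 2 3 5 6 (.rf 6)))))) (.gap (.ru 14 (.lc 0 5 7 6 (.rf 6) (.lc 0 2
    5 3 (.cp 0 3 6 2 5 4 (.cp 6 2 0 4 3 5 (.rf 6))) (.pt 6 5 3 0 2 4 (.rf 6))))))) (.ru 18 (.eq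
    1 1)) (.cmp 5 (.gap (.ru 14 (.ru 18 (.lc 0 5 7 6 (.rf 6) (.lc 1 5 7 6 (.rf 6) (.lc 0 2 5 3
    (.k5 6 2 3 0 1 (.cp 0 1 6 2 5 4 (.cp 0 3 1 5 6 7 (.cp 5 0 1 7 4 6 (.rf 6))))) (.oc 5 6 3 0 2
    1 (.rf 6)))))))) (.ru 14 (.rf 6)) (.gap (.ru 14 (.ru 18 (.cmp 6 (.cmp 5 (.cmp 1 (.cmp 0 .mn
    (.ru 16 (.lc 0 7 5 4 (.rf 19) (.ru 20 (.lc 1 7 5 4 (.rf 19) (.pt 0 1 7 5 4 2 (.pt 6 1 3 0 2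
    4 (.oc 5 6 4 0 7 1 (.rf 6)))))))) (.gap (.ru 15 (.ru 16 (.ru 17 (.lc 8 7 5 4 (.rf 19) (.ru
    20 (.lc 0 2 5 3 (.cp 0 3 6 2 5 4 (.cp 6 0 2 4 3 8 (.cp 6 8 2 3 7 1 (.cp 6 2 0 4 1 5 (.rf
    6))))) (.pt 6 5 3 0 2 4 (.rf 6)))))))))) (.rf 1) (.gap (.rf 1))) (.rf 1) (.cmp 7 (.gap (.rf
    1)) (.rf 1) (.gap (.rf 1)))) (.rf 1) (.cmp 4 (.cmp 2 (.gap (.rf 1)) (.rf 1) (.gap (.rf 1)))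
    (.rf 1) (.cmp 3 (.gap (.rf 1)) (.rf 1) (.gap (.rf 26)))))))))) (.ru 18 (.lc 0 5 1 6 (.rf 6)
    (.lc 0 2 5 3 (.k5 6 2 3 0 1 (.cp 0 1 6 2 5 4 (.cp 1 0 6 2 5 4 (.cp 5 0 1 4 3 6 (.rf 6)))))
    (.oc 5 6 3 0 2 1 (.rf 6))))) (.cmp 4 (.cmp 2 (.gap (.ru 14 (.ru 18 (.cmp 7 (.cmp 5 (.cmp 1
    (.cmp 0 .mn (.ru 16 (.lc 0 7 5 4 (.rf 19) (.ru 20 (.lc 1 7 5 4 (.rf 19) (.pt 0 1 7 5 4 2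
    (.pt 6 1 3 0 2 4 (.oc 5 6 4 0 7 1 (.rf 6)))))))) (.gap (.ru 16 (.lc 8 7 5 4 (.rf 19) (.ru 20
    (.lc 5 7 6 2 (.rf 6) (.pt 6 5 3 0 2 4 (.rf 6)))))))) (.rf 1) (.gap (.rf 1))) (.rf 1) (.cmp 6
    (.gap (.rf 1)) (.rf 1) (.gap (.rf 1)))) (.rf 1) (.cmp 4 (.cmp 2 (.gap (.rf 1)) (.rf 1) (.gap
    (.rf 1))) (.rf 1) (.cmp 3 (.gap (.rf 1)) (.rf 1) (.gap (.rf 26)))))))) (.cmp 6 (.cmp 1 (.cmp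
    0 .mn (.rf 19) (.gap (.ru 15 (.ru 17 (.lc 0 5 8 2 (.pt 2 3 8 0 5 1 (.k5 0 2 3 8 5 (.rf 19)))
    (.rf 19)))))) (.rf 1) (.cmp 5 (.gap (.rf 1)) (.rf 1) (.gap (.rf 1)))) (.rf 1) (.cmp 4 (.cmp
    2 (.gap (.rf 1)) (.rf 1) (.gap (.rf 1))) (.rf 1) (.cmp 3 (.gap (.rf 1)) (.rf 1) (.gap (.rf
    4))))) (.gap (.ru 14 (.ru 18 (.cmp 2 (.cmp 5 (.cmp 1 (.cmp 0 .mn (.rf 5) (.gap (.ru 15 (.ru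
    16 (.ru 17 (.lc 8 7 5 4 (.rf 19) (.lc 1 7 2 4 (.lc 0 5 8 2 (.pt 5 8 3 0 2 4 (.pt 7 2 1 5 4 8
    (.pt 2 3 8 0 5 1 (.oc 7 3 2 8 5 1 (.oc 4 3 2 8 5 7 (.cp 0 8 5 2 3 1 (.cp 0 8 5 2 3 7 (.cp 0
    8 5 2 3 4 (.cp 8 0 5 2 7 1 (.cp 8 0 2 7 4 6 (.cp 1 0 8 2 7 6 (.cp 5 0 8 1 2 6 (.rf
    6))))))))))))) (.rf 19)) (.pt 7 4 5 1 2 6 (.cp 5 1 7 4 3 6 (.rf 6)))))))))) (.rf 1) (.gap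
    (.rf 1))) (.rf 1) (.cmp 6 (.gap (.rf 1)) (.rf 1) (.gap (.rf 1)))) (.rf 1) (.cmp 4 (.cmp 7
    (.gap (.rf 1)) (.rf 1) (.gap (.rf 1))) (.rf 1) (.cmp 3 (.gap (.rf 1)) (.rf 1) (.gap (.rf
    4))))))))) (.ru 18 (.lc 0 2 5 3 (.pt 4 3 5 1 2 6 (.cp 1 4 5 3 2 0 (.cp 5 1 0 3 4 2 (.cp 5 1
    2 4 3 6 (.rf 6))))) (.cp 5 1 2 4 3 6 (.rf 6)))) (.cmp 3 (.gap (.cmp 2 (.cmp 5 (.cmp 1 (.cmp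
    0 .mn (.rf 5) (.gap (.rf 25))) (.rf 1) (.gap (.rf 1))) (.rf 1) (.cmp 6 (.gap (.rf 1)) (.rf
    1) (.gap (.rf 1)))) (.rf 1) (.cmp 7 (.cmp 4 (.gap (.rf 1)) (.rf 1) (.gap (.rf 1))) (.rf 1)
    (.cmp 3 (.gap (.rf 1)) (.rf 1) (.gap (.rf 4)))))) (.cmp 6 (.cmp 1 (.cmp 0 .mn (.rf 1) (.gap
    (.rf 1))) (.rf 1) (.cmp 5 (.gap (.rf 1)) (.rf 1) (.gap (.rf 1)))) (.rf 1) (.cmp 4 (.cmp 2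
    (.gap (.rf 1)) (.rf 1) (.gap (.rf 1))) (.rf 1) (.cmp 3 (.gap (.rf 1)) (.rf 1) (.gap (.rf
    1))))) (.gap (.cmp 2 (.cmp 5 (.cmp 1 (.cmp 0 .mn (.rf 1) (.gap (.rf 1))) (.rf 1) (.gap (.rf
    25))) (.rf 25) (.cmp 6 (.gap (.rf 26)) (.rf 26) (.gap (.rf 26)))) (.rf 5) (.cmp 3 (.cmp 4
    (.gap (.rf 4)) (.rf 4) (.gap (.rf 4))) (.rf 1) (.cmp 7 (.gap (.rf 1)) (.rf 1) (.gap (.rf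
    1)))))))))

/-- Part of a certificate. -/
def t00_17 : Tr :=
    (.cmp 2 (.cmp 1 (.cmp 0 .mn (.ru 14 (.ru 18 (.lc 0 2 5 3 (.k5 0 1 3 5 2 (.k5 0 2 3 5 6 (.rf
    6))) (.k5 0 1 5 2 3 (.k5 0 2 3 5 6 (.rf 6)))))) (.gap (.ru 14 (.ru 18 (.lc 0 5 7 6 (.rf 6)
    (.lc 0 6 1 3 (.cp 0 3 1 5 6 7 (.cp 7 0 1 5 6 3 (.cp 7 3 0 1 6 2 (.cp 1 0 7 2 3 6 (.cp 5 0 7
    1 3 6 (.rf 6)))))) (.pt 6 5 7 1 3 0 (.rf 6)))))))) (.ru 18 (.eq 1 1)) (.cmp 5 (.gap (.ru 14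
    (.ru 18 (.lc 0 5 7 6 (.rf 6) (.lc 1 5 7 6 (.rf 6) (.lc 0 2 5 3 (.k5 2 6 3 0 1 (.cp 0 1 2 6 5
    4 (.cp 0 3 1 5 6 7 (.cp 5 0 1 7 4 6 (.rf 6))))) (.oc 5 6 3 0 2 1 (.rf 6)))))))) (.ru 14 (.rf
    6)) (.gap (.ru 14 (.ru 18 (.cmp 2 (.cmp 5 (.cmp 1 (.cmp 0 .mn (.ru 16 (.lc 0 7 5 4 (.rf 19)
    (.lc 1 7 5 4 (.rf 19) (.pt 0 1 7 5 4 2 (.cp 1 0 2 4 7 6 (.cp 5 0 1 7 4 6 (.rf 6))))))) (.gap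
    (.ru 15 (.ru 16 (.ru 17 (.lc 8 7 5 4 (.rf 19) (.ru 20 (.lc 0 5 8 2 (.pt 5 8 3 0 2 4 (.cp 0 8
    5 2 3 1 (.cp 0 2 8 5 1 7 (.cp 0 2 8 5 6 4 (.cp 8 0 5 7 2 1 (.cp 8 0 2 4 7 6 (.cp 1 0 8 7 2 6
    (.cp 5 0 8 1 7 6 (.rf 6))))))))) (.lc 1 7 5 4 (.rf 19) (.pt 8 1 7 5 4 2 (.cp 8 1 5 3 2 0
    (.cp 8 1 2 4 7 6 (.cp 1 8 5 3 2 0 (.cp 1 8 2 4 0 6 (.cp 5 0 8 1 3 6 (.rf 6))))))))))))))))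
    (.rf 1) (.gap (.rf 1))) (.rf 1) (.cmp 7 (.gap (.rf 1)) (.rf 1) (.gap (.rf 1)))) (.rf 1)
    (.cmp 4 (.cmp 6 (.gap (.rf 1)) (.rf 1) (.gap (.rf 1))) (.rf 1) (.cmp 3 (.gap (.rf 1)) (.rf
    1) (.gap (.rf 26)))))))))) (.cmp 2 (.cmp 1 (.cmp 0 .mn (.rf 19) (.gap (.ru 15 (.ru 17 (.lc 0
    5 8 2 (.pt 2 3 8 0 5 1 (.k5 0 2 3 8 5 (.rf 19))) (.rf 19)))))) (.rf 1) (.cmp 5 (.gap (.rf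
    1)) (.rf 1) (.gap (.rf 1)))) (.rf 1) (.cmp 4 (.cmp 6 (.gap (.rf 1)) (.rf 1) (.gap (.rf 1)))
    (.rf 1) (.cmp 3 (.gap (.rf 1)) (.rf 1) (.gap (.rf 4))))) (.cmp 4 (.cmp 6 (.gap (.ru 14 (.ru
    18 (.cmp 7 (.cmp 5 (.cmp 1 (.cmp 0 .mn (.rf 5) (.gap (.ru 15 (.ru 16 (.ru 17 (.lc 8 7 5 4
    (.rf 19) (.lc 5 7 2 6 (.lc 1 7 5 4 (.pt 7 2 1 5 4 8 (.cp 1 5 2 7 3 8 (.cp 1 2 8 7 5 4 (.cp 5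
    1 2 7 4 6 (.rf 6))))) (.cp 5 1 2 4 7 6 (.rf 6))) (.rf 6)))))))) (.rf 1) (.gap (.rf 1))) (.rf
    1) (.cmp 2 (.gap (.rf 1)) (.rf 1) (.gap (.rf 1)))) (.rf 1) (.cmp 4 (.cmp 6 (.gap (.rf 1))
    (.rf 1) (.gap (.rf 1))) (.rf 1) (.cmp 3 (.gap (.rf 1)) (.rf 1) (.gap (.rf 4)))))))) (.ru 18
    (.lc 0 5 1 6 (.rf 6) (.lc 0 2 5 3 (.k5 2 6 3 0 1 (.cp 0 1 2 6 5 4 (.cp 1 0 2 6 5 4 (.cp 5 0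
    1 4 3 6 (.rf 6))))) (.oc 5 6 3 0 2 1 (.rf 6))))) (.gap (.ru 14 (.ru 18 (.cmp 6 (.cmp 5 (.cmp
    1 (.cmp 0 .mn (.rf 5) (.gap (.ru 15 (.ru 16 (.ru 17 (.lc 8 7 5 4 (.rf 19) (.lc 0 5 8 2 (.pt
    5 8 3 0 2 4 (.pt 2 3 8 0 5 1 (.cp 0 8 5 2 3 1 (.cp 0 2 8 5 1 7 (.cp 0 3 8 5 2 4 (.cp 8 0 5 2
    7 1 (.cp 8 0 2 4 7 6 (.cp 1 0 8 2 7 6 (.cp 5 0 8 1 2 6 (.rf 6)))))))))) (.lc 8 7 2 4 (.rf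
    19) (.lc 1 7 5 4 (.rf 19) (.oc 8 1 4 5 7 2 (.oc 5 2 4 8 7 1 (.cp 8 1 5 2 3 0 (.cp 8 1 2 7 4
    6 (.cp 1 8 5 2 3 0 (.cp 1 8 2 7 4 6 (.cp 5 0 8 1 2 6 (.rf 6))))))))))))))))) (.rf 1) (.gap
    (.rf 1))) (.rf 1) (.cmp 2 (.gap (.rf 1)) (.rf 1) (.gap (.rf 1)))) (.rf 1) (.cmp 4 (.cmp 7
    (.gap (.rf 1)) (.rf 1) (.gap (.rf 1))) (.rf 1) (.cmp 3 (.gap (.rf 1)) (.rf 1) (.gap (.rf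
    4))))))))) (.cmp 2 (.cmp 1 (.cmp 0 .mn (.rf 5) (.gap (.rf 25))) (.rf 1) (.cmp 5 (.gap (.rf
    1)) (.rf 1) (.gap (.rf 1)))) (.rf 1) (.cmp 4 (.cmp 6 (.gap (.rf 1)) (.rf 1) (.gap (.rf 1)))
    (.rf 1) (.cmp 3 (.gap (.rf 1)) (.rf 1) (.gap (.rf 4))))) (.cmp 3 (.gap (.cmp 6 (.cmp 5 (.cmp
    1 (.cmp 0 .mn (.rf 5) (.gap (.rf 25))) (.rf 1) (.gap (.rf 1))) (.rf 1) (.cmp 2 (.gap (.rf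
    1)) (.rf 1) (.gap (.rf 1)))) (.rf 1) (.cmp 7 (.cmp 4 (.gap (.rf 1)) (.rf 1) (.gap (.rf 1)))
    (.rf 1) (.cmp 3 (.gap (.rf 1)) (.rf 1) (.gap (.rf 4)))))) (.cmp 2 (.cmp 1 (.cmp 0 .mn (.rf
    1) (.gap (.rf 1))) (.rf 1) (.cmp 5 (.gap (.rf 1)) (.rf 1) (.gap (.rf 1)))) (.rf 1) (.cmp 4
    (.cmp 6 (.gap (.rf 1)) (.rf 1) (.gap (.rf 1))) (.rf 1) (.cmp 3 (.gap (.rf 1)) (.rf 1) (.gap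
    (.rf 1))))) (.gap (.cmp 6 (.cmp 5 (.cmp 1 (.cmp 0 .mn (.rf 1) (.gap (.rf 1))) (.rf 1) (.gap
    (.rf 25))) (.rf 25) (.cmp 2 (.gap (.rf 26)) (.rf 5) (.gap (.rf 4)))) (.rf 4) (.cmp 3 (.cmp 4
    (.gap (.rf 4)) (.rf 4) (.gap (.rf 4))) (.rf 1) (.cmp 7 (.gap (.rf 1)) (.rf 1) (.gap (.rf
    1)))))))))

/-- Part of a certificate. -/
def t00_18 : Tr :=
    (.cmp 2 (.cmp 1 (.cmp 0 .mn (.ru 14 (.ru 18 (.cmp 2 (.cmp 1 (.cmp 0 .mn (.rf 1) (.gap (.rf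
    1))) (.rf 1) (.cmp 5 (.gap (.ru 15 (.ru 16 (.ru 17 (.lc 0 5 8 3 (.k5 0 1 5 2 3 (.k5 0 2 3 5
    6 (.rf 6))) (.k5 0 5 2 1 8 (.cp 1 8 0 2 3 6 (.cp 8 0 1 2 3 6 (.cp 5 0 1 8 2 6 (.rf
    6)))))))))) (.ru 17 (.k5 0 1 5 2 3 (.k5 0 2 3 5 6 (.rf 6)))) (.gap (.ru 17 (.lc 5 2 8 3 (.k5
    0 1 2 5 3 (.k5 0 2 3 5 6 (.rf 6))) (.k5 0 1 5 2 3 (.k5 0 2 3 5 6 (.rf 6)))))))) (.ru 17 (.k5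
    0 1 2 5 3 (.k5 0 2 3 5 6 (.rf 6)))) (.cmp 6 (.cmp 4 (.gap (.rf 4)) (.rf 4) (.gap (.rf 4)))
    (.rf 4) (.cmp 3 (.gap (.rf 4)) (.rf 1) (.gap (.rf 1))))))) (.gap (.ru 14 (.ru 18 (.lc 0 5 7
    6 (.rf 6) (.cmp 2 (.cmp 1 (.cmp 7 (.cmp 0 .mn (.rf 1) (.gap (.rf 1))) (.rf 1) (.gap (.rf
    1))) (.rf 1) (.cmp 5 (.gap (.lc 0 2 7 6 (.pt 5 6 7 0 2 4 (.rf 6)) (.lc 0 6 1 3 (.k5 1 5 2 0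
    7 (.pt 5 6 7 0 2 4 (.rf 6))) (.k5 7 1 2 5 6 (.rf 6))))) (.ru 17 (.lc 0 6 1 3 (.k5 0 1 5 2 3
    (.k5 0 2 3 5 6 (.rf 6))) (.oc 0 1 3 5 2 6 (.pt 5 6 1 0 2 4 (.rf 6))))) (.gap (.lc 0 2 7 6
    (.pt 5 6 7 0 2 4 (.rf 6)) (.lc 0 6 1 3 (.k5 1 5 2 0 7 (.pt 5 6 7 0 2 4 (.rf 6))) (.k5 7 1 2
    5 6 (.rf 6))))))) (.ru 16 (.ru 17 (.lc 0 6 1 3 (.k5 0 1 2 5 3 (.k5 0 2 3 5 6 (.rf 6))) (.k5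
    7 1 2 5 6 (.rf 6))))) (.cmp 6 (.cmp 4 (.gap (.ru 16 (.lc 0 2 7 8 (.pt 5 6 7 0 2 4 (.rf 6))
    (.lc 0 6 1 3 (.k5 1 5 2 0 7 (.pt 5 6 7 0 2 4 (.rf 6))) (.k5 7 1 2 5 6 (.rf 6)))))) (.rf 25)
    (.gap (.rf 25))) (.rf 25) (.cmp 3 (.gap (.rf 25)) (.rf 1) (.gap (.rf 1)))))))))) (.ru 18
    (.eq 1 1)) (.cmp 5 (.gap (.ru 14 (.ru 18 (.lc 0 5 7 6 (.rf 6) (.lc 1 5 7 6 (.rf 6) (.pt 5 6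
    7 1 2 4 (.rf 6))))))) (.ru 14 (.rf 6)) (.gap (.ru 14 (.ru 18 (.lc 5 2 7 6 (.lc 1 7 5 4 (.pt
    2 7 1 5 4 6 (.k5 7 2 4 5 6 (.rf 6))) (.cp 5 1 2 4 7 6 (.rf 6))) (.rf 6))))))) (.cmp 2 (.cmp
    1 (.cmp 0 .mn (.rf 19) (.gap (.ru 15 (.ru 17 (.lc 0 5 8 2 (.lc 0 5 8 3 (.pt 2 3 8 0 5 1 (.k5
    0 2 3 8 5 (.rf 19))) (.rf 19)) (.rf 19)))))) (.rf 1) (.cmp 5 (.gap (.rf 1)) (.rf 1) (.gap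
    (.rf 1)))) (.rf 1) (.cmp 6 (.cmp 4 (.gap (.rf 1)) (.rf 1) (.gap (.rf 1))) (.rf 1) (.cmp 3
    (.gap (.rf 1)) (.rf 1) (.gap (.rf 4))))) (.cmp 6 (.cmp 4 (.gap (.ru 14 (.ru 18 (.lc 5 4 7 6
    (.lc 1 7 5 4 (.pt 7 2 1 5 4 6 (.k5 2 7 4 5 6 (.rf 6))) (.cp 5 1 2 4 7 6 (.rf 6))) (.rf
    6))))) (.ru 18 (.lc 0 5 1 4 (.k5 1 5 2 0 4 (.cp 1 0 2 4 3 6 (.cp 5 0 1 2 4 6 (.rf 6)))) (.k5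
    5 2 4 0 1 (.cp 1 0 2 4 3 6 (.cp 5 0 1 2 4 6 (.rf 6)))))) (.gap (.cmp 4 (.cmp 5 (.cmp 1 (.cmp
    0 .mn (.rf 5) (.gap (.rf 25))) (.rf 1) (.gap (.rf 1))) (.rf 1) (.cmp 2 (.gap (.rf 1)) (.rf
    1) (.gap (.rf 1)))) (.rf 1) (.cmp 6 (.cmp 7 (.gap (.rf 1)) (.rf 1) (.gap (.rf 1))) (.rf 1)
    (.cmp 3 (.gap (.rf 1)) (.rf 1) (.gap (.rf 4))))))) (.cmp 2 (.cmp 1 (.cmp 0 .mn (.rf 5) (.gap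
    (.rf 25))) (.rf 1) (.cmp 5 (.gap (.rf 1)) (.rf 1) (.gap (.rf 1)))) (.rf 1) (.cmp 6 (.cmp 4
    (.gap (.rf 1)) (.rf 1) (.gap (.rf 1))) (.rf 1) (.cmp 3 (.gap (.rf 1)) (.rf 1) (.gap (.rf
    4))))) (.cmp 3 (.gap (.cmp 4 (.cmp 5 (.cmp 1 (.cmp 0 .mn (.rf 5) (.gap (.rf 25))) (.rf 1)
    (.gap (.rf 1))) (.rf 1) (.cmp 2 (.gap (.rf 1)) (.rf 1) (.gap (.rf 1)))) (.rf 1) (.cmp 7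
    (.cmp 6 (.gap (.rf 1)) (.rf 1) (.gap (.rf 1))) (.rf 1) (.cmp 3 (.gap (.rf 1)) (.rf 1) (.gap
    (.rf 4)))))) (.cmp 2 (.cmp 1 (.cmp 0 .mn (.rf 1) (.gap (.rf 1))) (.rf 1) (.cmp 5 (.gap (.rf
    1)) (.rf 1) (.gap (.rf 1)))) (.rf 1) (.cmp 6 (.cmp 4 (.gap (.rf 1)) (.rf 1) (.gap (.rf 1)))
    (.rf 1) (.cmp 3 (.gap (.rf 1)) (.rf 1) (.gap (.rf 1))))) (.gap (.cmp 4 (.cmp 5 (.cmp 1 (.cmp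
    0 .mn (.rf 1) (.gap (.rf 1))) (.rf 1) (.gap (.rf 25))) (.rf 25) (.cmp 2 (.gap (.rf 26)) (.rf
    5) (.gap (.rf 4)))) (.rf 4) (.cmp 3 (.cmp 6 (.gap (.rf 4)) (.rf 4) (.gap (.rf 4))) (.rf 1)
    (.cmp 7 (.gap (.rf 1)) (.rf 1) (.gap (.rf 1)))))))))

/-- Part of a certificate. -/
def t00_19 : Tr :=
    (.cmp 3 (.cmp 4 (.gap (.ru 12 (.ru 13 (.lc 5 4 6 3 (.rf 6) t00_17)))) (.rf 6) (.gap (.ru 12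
    (.ru 13 (.lc 5 4 2 6 t00_18 (.rf 6)))))) (.ru 13 (.lc 5 4 2 3 (.cmp 2 (.cmp 1 (.cmp 0 .mn
    (.ru 18 (.k5 0 1 2 5 3 (.rf 6))) (.gap (.ru 14 (.ru 18 (.lc 0 5 7 3 (.rf 6) (.lc 0 2 7 3
    (.oc 0 1 3 7 5 2 (.pt 2 7 3 0 5 1 (.oc 5 3 1 0 7 2 (.rf 6)))) (.k5 7 1 2 5 3 (.rf 6))))))))
    (.ru 18 (.eq 1 1)) (.cmp 5 (.gap (.ru 14 (.ru 18 (.lc 0 5 7 3 (.rf 6) (.pt 5 3 7 1 2 4 (.rf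
    6)))))) (.ru 14 (.rf 6)) (.gap (.ru 14 (.ru 18 (.lc 5 2 7 3 (.lc 0 5 1 7 (.k5 0 1 2 5 3 (.rf
    6)) (.oc 5 3 2 0 7 1 (.rf 6))) (.rf 6))))))) (.cmp 2 (.cmp 1 (.cmp 0 .mn (.rf 19) (.gap (.ru
    17 (.lc 0 5 8 3 (.rf 6) (.rf 19))))) (.rf 1) (.cmp 5 (.gap (.rf 1)) (.rf 1) (.gap (.rf 1))))
    (.rf 1) (.cmp 3 (.cmp 4 (.gap (.rf 1)) (.rf 1) (.gap (.rf 1))) (.rf 1) (.gap (.rf 4))))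
    (.cmp 3 (.cmp 4 (.gap (.ru 14 (.ru 18 (.lc 5 4 7 3 (.lc 1 7 5 4 (.oc 5 3 7 1 2 4 (.rf 6))
    (.k5 1 2 4 5 3 (.rf 6))) (.rf 6))))) (.ru 18 (.k5 1 2 4 5 3 (.rf 6))) (.gap (.ru 14 (.ru 18
    (.lc 1 7 4 3 (.k5 1 2 4 5 3 (.rf 6)) (.pt 1 4 5 2 3 7 (.cp 1 4 5 2 3 0 (.cp 5 1 0 2 4 3 (.rf
    6))))))))) (.cmp 2 (.cmp 1 (.cmp 0 .mn (.rf 1) (.gap (.rf 1))) (.rf 1) (.cmp 5 (.gap (.rf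
    1)) (.rf 1) (.gap (.rf 1)))) (.rf 1) (.cmp 3 (.cmp 4 (.gap (.rf 1)) (.rf 1) (.gap (.rf 1)))
    (.rf 1) (.gap (.rf 1)))) (.gap (.cmp 2 (.cmp 1 (.cmp 0 .mn (.rf 1) (.gap (.rf 1))) (.rf 1)
    (.cmp 5 (.gap (.rf 25)) (.rf 25) (.gap (.rf 26)))) (.rf 5) (.cmp 3 (.cmp 4 (.gap (.rf 4))
    (.rf 4) (.gap (.rf 4))) (.rf 1) (.cmp 7 (.gap (.rf 1)) (.rf 1) (.gap (.rf 1)))))))) (.rf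
    6))) (.gap (.ru 12 (.ru 13 (.lc 5 4 2 6 (.cmp 2 (.cmp 1 (.cmp 0 .mn (.ru 14 (.ru 18 (.lc 1 3
    4 6 (.k5 1 5 2 0 4 (.cp 1 0 2 4 3 6 (.cp 5 0 1 2 4 6 (.rf 6)))) (.k5 0 1 2 5 6 (.rf 6)))))
    (.gap (.ru 14 (.lc 0 5 7 6 (.rf 6) (.lc 0 3 4 6 (.k5 0 2 4 5 6 (.rf 6)) (.pt 0 4 5 2 6 3
    (.cp 0 4 5 2 3 1 (.cp 1 0 5 2 3 4 (.cp 1 0 2 4 3 6 (.cp 5 0 1 2 4 6 (.rf 6))))))))))) (.ru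
    18 (.eq 1 1)) (.cmp 5 (.gap (.ru 14 (.ru 18 (.lc 0 5 7 6 (.rf 6) (.lc 1 5 7 6 (.rf 6) (.pt 5
    6 7 1 2 4 (.rf 6))))))) (.ru 14 (.rf 6)) (.gap (.ru 14 (.ru 18 (.lc 5 2 7 6 (.lc 1 7 5 4
    (.pt 2 7 1 5 4 6 (.k5 7 2 4 5 6 (.rf 6))) (.cp 5 1 2 4 7 6 (.rf 6))) (.rf 6))))))) (.cmp 2
    (.cmp 1 (.cmp 0 .mn (.rf 19) (.gap (.ru 15 (.ru 17 (.lc 0 5 8 2 (.lc 0 5 8 3 (.pt 2 3 8 0 5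
    1 (.k5 0 2 3 8 5 (.rf 19))) (.rf 19)) (.rf 19)))))) (.rf 1) (.cmp 5 (.gap (.rf 1)) (.rf 1)
    (.gap (.rf 1)))) (.rf 1) (.cmp 3 (.cmp 4 (.gap (.rf 1)) (.rf 1) (.gap (.rf 1))) (.rf 1)
    (.cmp 6 (.gap (.rf 4)) (.rf 4) (.gap (.rf 4))))) (.cmp 3 (.cmp 4 (.gap (.ru 14 (.ru 18 (.lc
    5 4 7 6 (.lc 1 7 5 4 (.pt 7 2 1 5 4 6 (.k5 2 7 4 5 6 (.rf 6))) (.cp 5 1 2 4 7 6 (.rf 6)))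
    (.rf 6))))) (.ru 18 (.lc 0 5 1 4 (.k5 1 5 2 0 4 (.cp 1 0 2 4 3 6 (.cp 5 0 1 2 4 6 (.rf 6))))
    (.k5 5 2 4 0 1 (.cp 1 0 2 4 3 6 (.cp 5 0 1 2 4 6 (.rf 6)))))) (.gap (.cmp 4 (.cmp 5 (.cmp 1
    (.cmp 0 .mn (.rf 5) (.gap (.rf 25))) (.rf 1) (.gap (.rf 1))) (.rf 1) (.cmp 2 (.gap (.rf 1))
    (.rf 1) (.gap (.rf 1)))) (.rf 1) (.cmp 3 (.cmp 7 (.gap (.rf 1)) (.rf 1) (.gap (.rf 1))) (.rf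
    1) (.cmp 6 (.gap (.rf 4)) (.rf 4) (.gap (.rf 4))))))) (.cmp 2 (.cmp 1 (.cmp 0 .mn (.rf 1)
    (.gap (.rf 1))) (.rf 1) (.cmp 5 (.gap (.rf 1)) (.rf 1) (.gap (.rf 1)))) (.rf 1) (.cmp 3
    (.cmp 4 (.gap (.rf 1)) (.rf 1) (.gap (.rf 1))) (.rf 1) (.cmp 6 (.gap (.rf 1)) (.rf 1) (.gap
    (.rf 1))))) (.cmp 6 (.gap (.cmp 4 (.cmp 5 (.cmp 1 (.cmp 0 .mn (.rf 1) (.gap (.rf 1))) (.rf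
    1) (.gap (.rf 25))) (.rf 25) (.cmp 2 (.gap (.rf 26)) (.rf 5) (.gap (.rf 4)))) (.rf 4) (.cmp
    7 (.cmp 3 (.gap (.rf 4)) (.rf 1) (.gap (.rf 1))) (.rf 1) (.cmp 6 (.gap (.rf 1)) (.rf 1)
    (.gap (.rf 1)))))) (.ru 18 (.lc 0 5 1 6 (.rf 6) (.lc 0 3 4 6 (.k5 0 2 4 5 6 (.rf 6)) (.pt 0
    4 5 2 6 3 (.pt 1 4 5 2 6 3 (.oc 5 6 4 0 2 1 (.rf 6))))))) (.gap (.cmp 4 (.cmp 5 (.cmp 1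
    (.cmp 0 .mn (.rf 1) (.gap (.rf 1))) (.rf 1) (.gap (.rf 25))) (.rf 25) (.cmp 2 (.gap (.rf
    26)) (.rf 5) (.gap (.rf 4)))) (.rf 4) (.cmp 6 (.cmp 3 (.gap (.rf 4)) (.rf 1) (.gap (.rf 1)))
    (.rf 1) (.cmp 7 (.gap (.rf 1)) (.rf 1) (.gap (.rf 1))))))))) (.rf 6))))))

/-- Part of a certificate. -/
def t00_20 : Tr :=
    (.cmp 2 (.cmp 1 (.cmp 0 .mn (.rf 6) (.gap (.ru 12 (.ru 13 (.lc 0 5 6 2 (.lc 0 5 6 3 (.pt 2 3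
    6 0 5 1 (.k5 0 2 3 6 5 (.rf 6))) (.rf 6)) (.rf 6)))))) (.rf 6) (.cmp 5 (.gap (.ru 12 (.ru 13
    (.lc 0 5 6 2 (.lc 0 6 1 5 (.rf 6) (.lc 0 5 6 3 (.oc 6 5 3 0 2 1 (.rf 6)) (.rf 6))) (.rf
    6))))) (.rf 7) (.gap (.ru 12 (.ru 13 (.lc 5 4 6 3 (.rf 6) t00_16)))))) (.ru 12 (.lc 5 4 2 3
    (.rf 6) (.cmp 2 (.cmp 1 (.cmp 0 .mn (.ru 18 (.k5 0 1 3 5 2 (.rf 6))) (.gap (.ru 14 (.ru 18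
    (.lc 0 5 7 2 (.rf 6) (.pt 2 5 7 1 3 0 (.rf 6))))))) (.ru 18 (.eq 1 1)) (.cmp 5 (.gap (.ru 14
    (.ru 18 (.lc 0 5 7 2 (.rf 6) (.cmp 5 (.cmp 1 (.cmp 0 .mn (.ru 16 (.oc 0 1 2 7 5 3 (.oc 7 3 2
    0 5 1 (.oc 5 2 7 0 1 3 (.rf 6))))) (.gap (.ru 15 (.ru 16 (.ru 17 (.lc 0 5 8 2 (.rf 6) (.oc 8
    1 2 7 5 3 (.oc 7 3 2 8 5 1 (.oc 5 2 7 8 1 3 (.rf 6)))))))))) (.rf 1) (.cmp 7 (.gap (.rf 1))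
    (.rf 1) (.gap (.rf 1)))) (.rf 1) (.cmp 4 (.cmp 2 (.gap (.rf 1)) (.rf 1) (.gap (.rf 1))) (.rf
    1) (.cmp 3 (.gap (.rf 1)) (.rf 1) (.gap (.rf 25))))))))) (.ru 14 (.rf 6)) (.gap (.ru 14 (.ru
    18 (.cmp 7 (.cmp 1 (.cmp 0 .mn (.ru 16 (.lc 0 7 5 4 (.rf 19) (.oc 5 2 3 0 7 1 (.rf 6))))
    (.gap (.ru 15 (.ru 16 (.ru 17 (.lc 0 5 8 2 (.rf 6) (.lc 8 7 5 4 (.rf 19) (.oc 5 2 3 8 7 1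
    (.rf 6))))))))) (.rf 1) (.cmp 5 (.gap (.rf 1)) (.rf 1) (.gap (.rf 1)))) (.rf 1) (.cmp 4
    (.cmp 2 (.gap (.rf 1)) (.rf 1) (.gap (.rf 1))) (.rf 1) (.cmp 3 (.gap (.rf 1)) (.rf 1) (.gap
    (.rf 26)))))))))) (.cmp 2 (.cmp 1 (.cmp 0 .mn (.rf 19) (.gap (.ru 15 (.lc 0 5 8 2 (.rf 6)
    (.rf 19))))) (.rf 1) (.cmp 5 (.gap (.rf 1)) (.rf 1) (.gap (.rf 1)))) (.rf 1) (.cmp 3 (.cmp 4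
    (.gap (.rf 1)) (.rf 1) (.gap (.rf 1))) (.rf 1) (.gap (.rf 4)))) (.cmp 3 (.cmp 4 (.gap (.ru
    14 (.ru 18 (.cmp 2 (.cmp 1 (.cmp 0 .mn (.rf 5) (.gap (.ru 15 (.ru 16 (.ru 17 (.lc 0 5 8 2
    (.rf 6) (.lc 8 7 5 4 (.rf 19) (.oc 5 2 3 8 7 1 (.rf 6))))))))) (.rf 1) (.cmp 5 (.gap (.rf
    1)) (.rf 1) (.gap (.rf 1)))) (.rf 1) (.cmp 4 (.cmp 7 (.gap (.rf 1)) (.rf 1) (.gap (.rf 1)))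
    (.rf 1) (.cmp 3 (.gap (.rf 1)) (.rf 1) (.gap (.rf 4)))))))) (.ru 18 (.lc 0 5 1 4 (.k5 0 1 3
    5 2 (.rf 6)) (.oc 5 2 3 0 4 1 (.rf 6)))) (.gap (.ru 14 (.ru 18 (.lc 5 4 2 7 (.rf 6) (.lc 0 5
    1 7 (.k5 0 1 3 5 2 (.rf 6)) (.oc 5 2 3 0 7 1 (.rf 6)))))))) (.cmp 2 (.cmp 1 (.cmp 0 .mn (.rf
    1) (.gap (.rf 1))) (.rf 1) (.cmp 5 (.gap (.rf 1)) (.rf 1) (.gap (.rf 1)))) (.rf 1) (.cmp 3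
    (.cmp 4 (.gap (.rf 1)) (.rf 1) (.gap (.rf 1))) (.rf 1) (.gap (.rf 1)))) (.gap (.ru 14 (.ru
    18 (.lc 5 4 2 7 (.rf 6) (.lc 0 5 1 7 (.k5 0 1 3 5 2 (.rf 6)) (.oc 5 2 7 0 3 1 (.rf
    6))))))))))) t00_19)

/-- Part of a certificate. -/
def t00_21 : Tr :=
    (.cmp 3 (.gap (.ru 12 (.ru 13 (.cmp 2 (.cmp 1 (.cmp 0 .mn (.ru 14 (.k5 0 2 3 1 6 (.rf 6)))
    (.gap (.ru 14 (.lc 0 1 7 6 (.rf 6) (.k5 0 2 3 1 6 (.rf 6)))))) (.ru 18 (.eq 1 1)) (.gap (.ru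
    14 (.ru 18 (.lc 0 2 7 6 (.cp 1 0 2 3 7 6 (.rf 6)) (.k5 0 2 3 1 6 (.rf 6))))))) (.cmp 2 (.cmp
    1 (.cmp 0 .mn (.rf 19) (.gap (.ru 17 (.ru 20 (.k5 0 2 3 1 6 (.rf 6)))))) (.rf 1) (.gap (.rf
    1))) (.rf 1) (.cmp 3 (.cmp 6 (.gap (.rf 1)) (.rf 1) (.gap (.rf 1))) (.rf 1) (.gap (.rf 4))))
    (.cmp 3 (.cmp 6 (.gap (.ru 14 (.ru 18 (.cmp 7 (.cmp 1 (.cmp 0 .mn (.rf 5) (.gap (.ru 15 (.ru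
    16 (.ru 17 (.lc 0 1 8 2 (.k5 0 2 3 8 1 (.cp 8 1 2 3 7 6 (.cp 1 0 8 2 3 6 (.rf 6)))) (.k5 1 2
    3 0 8 (.cp 8 1 2 3 7 6 (.cp 1 0 8 2 3 6 (.rf 6)))))))))) (.rf 1) (.cmp 2 (.gap (.rf 1)) (.rf
    1) (.gap (.rf 1)))) (.rf 1) (.cmp 3 (.cmp 6 (.gap (.rf 1)) (.rf 1) (.gap (.rf 1))) (.rf 1)
    (.gap (.rf 4))))))) (.ru 18 (.rf 6)) (.gap (.ru 14 (.ru 18 (.cmp 6 (.cmp 1 (.cmp 0 .mn (.rf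
    5) (.gap (.ru 15 (.ru 16 (.ru 17 (.lc 0 1 8 2 (.k5 0 2 3 8 1 (.cp 8 1 2 3 7 6 (.cp 1 0 8 2 3
    6 (.rf 6)))) (.k5 1 2 3 0 8 (.cp 8 1 2 3 7 6 (.cp 1 0 8 2 3 6 (.rf 6)))))))))) (.rf 1) (.cmp
    2 (.gap (.rf 1)) (.rf 1) (.gap (.rf 1)))) (.rf 1) (.cmp 3 (.cmp 7 (.gap (.rf 1)) (.rf 1)
    (.gap (.rf 1))) (.rf 1) (.gap (.rf 4)))))))) (.cmp 2 (.cmp 1 (.cmp 0 .mn (.rf 1) (.gap (.rf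
    1))) (.rf 1) (.gap (.rf 1))) (.rf 1) (.cmp 3 (.cmp 6 (.gap (.rf 1)) (.rf 1) (.gap (.rf 1)))
    (.rf 1) (.gap (.rf 1)))) (.gap (.ru 14 (.ru 18 (.lc 0 3 6 7 (.k5 0 2 3 1 6 (.rf 6)) (.cp 1 0
    2 3 7 6 (.rf 6))))))))))) (.rf 6) (.gap (.ru 12 (.ru 13 (.cmp 2 (.cmp 1 (.cmp 0 .mn (.ru 14
    (.k5 0 2 3 1 6 (.rf 6))) (.gap (.ru 14 (.lc 0 1 7 6 (.rf 6) (.k5 0 2 3 1 6 (.rf 6)))))) (.ru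
    18 (.eq 1 1)) (.gap (.ru 14 (.ru 18 (.lc 0 2 7 6 (.cp 1 0 2 3 7 6 (.rf 6)) (.k5 0 2 3 1 6
    (.rf 6))))))) (.cmp 2 (.cmp 1 (.cmp 0 .mn (.rf 19) (.gap (.ru 17 (.ru 20 (.k5 0 2 3 1 6 (.rf
    6)))))) (.rf 1) (.gap (.rf 1))) (.rf 1) (.cmp 6 (.cmp 3 (.gap (.rf 1)) (.rf 1) (.gap (.rf
    4))) (.rf 4) (.gap (.rf 4)))) (.cmp 6 (.cmp 3 (.gap (.ru 14 (.ru 18 (.lc 0 3 7 6 (.cp 1 0 2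
    3 7 6 (.rf 6)) (.k5 0 2 3 1 6 (.rf 6)))))) (.cmp 2 (.cmp 1 (.cmp 0 .mn (.rf 1) (.gap (.rf
    1))) (.rf 1) (.gap (.rf 1))) (.rf 1) (.cmp 6 (.cmp 3 (.gap (.rf 1)) (.rf 1) (.gap (.rf 1)))
    (.rf 1) (.gap (.rf 1)))) (.gap (.cmp 3 (.cmp 1 (.cmp 0 .mn (.rf 1) (.gap (.rf 1))) (.rf 1)
    (.cmp 2 (.gap (.rf 26)) (.rf 5) (.gap (.rf 4)))) (.rf 1) (.cmp 6 (.cmp 7 (.gap (.rf 1)) (.rf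
    1) (.gap (.rf 1))) (.rf 1) (.gap (.rf 1)))))) (.ru 18 (.rf 6)) (.gap (.cmp 3 (.cmp 1 (.cmp 0
    .mn (.rf 1) (.gap (.rf 1))) (.rf 1) (.cmp 2 (.gap (.rf 26)) (.rf 5) (.gap (.rf 4)))) (.rf 1)
    (.cmp 7 (.cmp 6 (.gap (.rf 1)) (.rf 1) (.gap (.rf 1))) (.rf 1) (.gap (.rf 1)))))))))))

/-- Part of a certificate. -/
def t00_22 : Tr :=
    (.cmp 2 (.cmp 1 (.cmp 0 .mn (.ru 14 (.ru 18 (.k5 0 1 3 5 2 (.k5 0 2 3 5 6 (.rf 6))))) (.gap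
    (.ru 14 (.ru 18 (.lc 0 5 7 6 (.rf 6) (.lc 0 6 1 3 (.k5 0 1 3 5 2 (.k5 0 2 3 5 6 (.rf 6)))
    (.pt 6 5 7 1 3 0 (.rf 6)))))))) (.ru 18 (.eq 1 1)) (.cmp 5 (.gap (.ru 14 (.ru 18 (.lc 0 5 7
    6 (.rf 6) (.lc 1 5 7 6 (.rf 6) (.k5 2 6 3 0 1 (.cp 0 3 1 5 6 7 (.cp 5 0 1 7 3 6 (.rf
    6))))))))) (.ru 14 (.rf 6)) (.gap (.ru 14 (.ru 18 (.cmp 7 (.cmp 1 (.cmp 0 .mn (.ru 16 (.lc 0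
    7 5 3 (.rf 19) (.pt 0 1 7 5 3 2 (.cp 1 0 2 3 7 6 (.cp 5 0 1 7 3 6 (.rf 6)))))) (.gap (.ru 16
    (.ru 17 (.lc 8 7 5 3 (.rf 19) (.ru 20 (.lc 0 6 1 3 (.k5 0 1 3 5 2 (.k5 0 2 3 5 6 (.rf 6)))
    (.k5 2 6 3 0 1 (.cp 0 3 1 5 6 7 (.cp 5 0 1 7 3 6 (.rf 6))))))))))) (.rf 1) (.cmp 5 (.gap
    (.rf 1)) (.rf 1) (.gap (.rf 1)))) (.rf 1) (.cmp 6 (.cmp 2 (.gap (.rf 1)) (.rf 1) (.gap (.rf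
    1))) (.rf 1) (.cmp 3 (.gap (.rf 1)) (.rf 1) (.gap (.rf 26)))))))))) (.cmp 2 (.cmp 1 (.cmp 0
    .mn (.rf 19) (.gap (.ru 15 (.ru 17 (.lc 0 5 8 2 (.ru 20 (.k5 0 2 3 5 6 (.rf 6))) (.rf
    19)))))) (.rf 1) (.cmp 5 (.gap (.rf 1)) (.rf 1) (.gap (.rf 1)))) (.rf 1) (.cmp 3 (.cmp 6
    (.gap (.rf 1)) (.rf 1) (.gap (.rf 1))) (.rf 1) (.gap (.rf 4)))) (.cmp 3 (.cmp 6 (.gap (.ru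
    14 (.ru 18 (.cmp 2 (.cmp 1 (.cmp 0 .mn (.rf 5) (.gap (.ru 16 (.lc 8 7 5 3 (.rf 19) (.lc 5 7
    2 6 (.k5 5 2 3 0 1 (.cp 1 5 2 3 7 6 (.cp 5 0 1 2 3 6 (.rf 6)))) (.rf 6)))))) (.rf 1) (.cmp 5
    (.gap (.rf 1)) (.rf 1) (.gap (.rf 1)))) (.rf 1) (.cmp 6 (.cmp 7 (.gap (.rf 1)) (.rf 1) (.gap
    (.rf 1))) (.rf 1) (.cmp 3 (.gap (.rf 1)) (.rf 1) (.gap (.rf 4)))))))) (.ru 18 (.lc 0 5 1 6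
    (.rf 6) (.k5 2 6 3 0 1 (.cp 2 6 0 1 3 5 (.cp 6 0 1 2 3 5 (.rf 6)))))) (.gap (.ru 14 (.ru 18
    (.cmp 2 (.cmp 1 (.cmp 0 .mn (.rf 5) (.gap (.ru 15 (.ru 16 (.ru 17 (.lc 8 7 5 3 (.rf 19) (.lc
    8 2 5 7 (.oc 8 1 3 5 7 2 (.oc 5 2 3 8 7 1 (.cp 8 1 5 2 3 0 (.cp 8 1 2 7 3 6 (.cp 1 8 5 2 3 0
    (.cp 1 8 2 7 3 6 (.cp 5 0 8 1 2 6 (.rf 6)))))))) (.k5 5 2 3 0 1 (.cp 1 5 2 3 7 6 (.cp 5 0 1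
    2 3 6 (.rf 6))))))))))) (.rf 1) (.cmp 5 (.gap (.rf 1)) (.rf 1) (.gap (.rf 1)))) (.rf 1)
    (.cmp 7 (.cmp 6 (.gap (.rf 1)) (.rf 1) (.gap (.rf 1))) (.rf 1) (.cmp 3 (.gap (.rf 1)) (.rf
    1) (.gap (.rf 4))))))))) (.cmp 2 (.cmp 1 (.cmp 0 .mn (.rf 1) (.gap (.rf 1))) (.rf 1) (.cmp 5
    (.gap (.rf 1)) (.rf 1) (.gap (.rf 1)))) (.rf 1) (.cmp 3 (.cmp 6 (.gap (.rf 1)) (.rf 1) (.gap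
    (.rf 1))) (.rf 1) (.gap (.rf 1)))) (.gap (.cmp 2 (.cmp 1 (.cmp 0 .mn (.rf 1) (.gap (.rf 1)))
    (.rf 1) (.cmp 5 (.gap (.rf 25)) (.rf 25) (.gap (.rf 26)))) (.rf 5) (.cmp 3 (.cmp 6 (.gap
    (.rf 4)) (.rf 4) (.gap (.rf 4))) (.rf 1) (.cmp 7 (.gap (.rf 1)) (.rf 1) (.gap (.rf 1))))))))

/-- Part of a certificate. -/
def t00_23 : Tr :=
    (.cmp 2 (.gap (.ru 12 (.ru 13 (.cmp 6 (.cmp 1 (.cmp 0 .mn (.ru 14 (.ru 18 (.k5 0 1 3 5 2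
    (.k5 0 2 3 5 6 (.rf 6))))) (.gap (.ru 14 (.ru 18 (.lc 0 5 7 6 (.rf 6) (.lc 0 6 1 2 (.k5 0 1
    3 5 2 (.k5 0 2 3 5 6 (.rf 6))) (.pt 6 5 7 1 3 0 (.rf 6)))))))) (.ru 18 (.eq 1 1)) (.cmp 5
    (.gap (.ru 14 (.ru 18 (.lc 0 5 7 6 (.rf 6) (.lc 1 5 7 6 (.rf 6) (.k5 6 2 3 0 1 (.cp 0 3 1 5
    6 7 (.cp 5 0 1 7 3 6 (.rf 6))))))))) (.ru 14 (.rf 6)) (.gap (.ru 14 (.ru 18 (.cmp 7 (.cmp 1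
    (.cmp 0 .mn (.ru 16 (.lc 0 7 5 3 (.rf 19) (.pt 0 1 7 5 3 2 (.cp 1 0 2 3 7 6 (.cp 5 0 1 7 3 6
    (.rf 6)))))) (.gap (.ru 16 (.ru 17 (.lc 8 7 5 3 (.rf 19) (.ru 20 (.lc 0 6 1 2 (.k5 0 1 3 5 2
    (.k5 0 2 3 5 6 (.rf 6))) (.k5 6 2 3 0 1 (.cp 0 3 1 5 6 7 (.cp 5 0 1 7 3 6 (.rf 6)))))))))))
    (.rf 1) (.cmp 5 (.gap (.rf 1)) (.rf 1) (.gap (.rf 1)))) (.rf 1) (.cmp 2 (.cmp 6 (.gap (.rf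
    1)) (.rf 1) (.gap (.rf 1))) (.rf 1) (.cmp 3 (.gap (.rf 1)) (.rf 1) (.gap (.rf 26))))))))))
    (.ru 18 (.lc 0 5 1 6 (.rf 6) (.k5 6 2 3 0 1 (.cp 6 2 0 1 3 5 (.rf 6))))) (.cmp 3 (.cmp 2
    (.gap (.ru 14 (.ru 18 (.cmp 6 (.cmp 1 (.cmp 0 .mn (.ru 16 (.lc 0 7 5 3 (.rf 19) (.pt 0 1 7 5
    3 2 (.cp 1 0 2 3 7 6 (.cp 5 0 1 7 3 6 (.rf 6)))))) (.gap (.ru 16 (.ru 17 (.lc 8 7 5 3 (.rf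
    19) (.ru 20 (.lc 5 7 6 2 (.rf 6) (.k5 0 2 3 5 6 (.rf 6))))))))) (.rf 1) (.cmp 5 (.gap (.rf
    1)) (.rf 1) (.gap (.rf 1)))) (.rf 1) (.cmp 2 (.cmp 7 (.gap (.rf 1)) (.rf 1) (.gap (.rf 1)))
    (.rf 1) (.cmp 3 (.gap (.rf 1)) (.rf 1) (.gap (.rf 26)))))))) (.cmp 6 (.cmp 1 (.cmp 0 .mn
    (.rf 19) (.gap (.ru 15 (.ru 17 (.lc 0 5 8 2 (.ru 20 (.k5 0 2 3 5 6 (.rf 6))) (.rf 19))))))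
    (.rf 1) (.cmp 5 (.gap (.rf 1)) (.rf 1) (.gap (.rf 1)))) (.rf 1) (.cmp 3 (.cmp 2 (.gap (.rf
    1)) (.rf 1) (.gap (.rf 1))) (.rf 1) (.gap (.rf 4)))) (.gap (.ru 14 (.ru 18 (.cmp 6 (.cmp 1
    (.cmp 0 .mn (.rf 5) (.gap (.ru 16 (.lc 8 7 5 3 (.rf 19) (.lc 5 7 2 3 (.k5 1 5 3 2 7 (.k5 2 7
    3 5 6 (.rf 6))) (.pt 7 3 5 1 2 6 (.cp 1 7 5 3 2 0 (.cp 5 1 0 3 7 2 (.cp 5 1 2 7 3 6 (.rf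
    6)))))))))) (.rf 1) (.cmp 5 (.gap (.rf 1)) (.rf 1) (.gap (.rf 1)))) (.rf 1) (.cmp 7 (.cmp 2
    (.gap (.rf 1)) (.rf 1) (.gap (.rf 1))) (.rf 1) (.cmp 3 (.gap (.rf 1)) (.rf 1) (.gap (.rf
    4))))))))) (.cmp 6 (.cmp 1 (.cmp 0 .mn (.rf 1) (.gap (.rf 1))) (.rf 1) (.cmp 5 (.gap (.rf
    1)) (.rf 1) (.gap (.rf 1)))) (.rf 1) (.cmp 3 (.cmp 2 (.gap (.rf 1)) (.rf 1) (.gap (.rf 1)))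
    (.rf 1) (.gap (.rf 1)))) (.gap (.ru 14 (.ru 18 (.lc 5 3 6 7 (.rf 6) (.lc 0 2 5 7 (.pt 3 7 5
    1 2 6 (.cp 1 7 5 3 2 0 (.cp 5 1 0 3 7 2 (.cp 5 1 2 3 7 6 (.rf 6))))) (.k5 5 2 3 0 1 (.cp 1 0
    2 3 7 6 (.cp 5 0 1 2 3 6 (.rf 6)))))))))))))) (.cmp 5 (.cmp 1 (.cmp 0 .mn (.ru 18 (.k5 0 1 3
    5 2 (.rf 6))) (.gap (.ru 14 (.ru 18 (.lc 0 5 7 2 (.rf 6) (.pt 2 5 7 1 3 0 (.rf 6))))))) (.ru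
    18 (.eq 1 1)) (.gap (.ru 14 (.ru 18 (.lc 0 5 7 2 (.rf 6) (.cmp 5 (.cmp 1 (.cmp 0 .mn (.ru 16
    (.oc 0 1 2 7 5 3 (.oc 7 3 2 0 5 1 (.oc 5 2 7 0 1 3 (.rf 6))))) (.gap (.ru 15 (.ru 16 (.ru 17
    (.lc 0 5 8 2 (.rf 6) (.oc 8 1 2 7 5 3 (.oc 7 3 2 8 5 1 (.oc 5 2 7 8 1 3 (.rf 6))))))))))
    (.rf 1) (.cmp 7 (.gap (.rf 1)) (.rf 1) (.gap (.rf 1)))) (.rf 1) (.cmp 3 (.cmp 2 (.gap (.rf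
    1)) (.rf 1) (.gap (.rf 1))) (.rf 1) (.gap (.rf 25))))))))) (.ru 14 (.rf 6)) (.cmp 3 (.cmp 2
    (.gap (.ru 14 (.ru 18 (.cmp 7 (.cmp 1 (.cmp 0 .mn (.ru 16 (.lc 0 7 5 3 (.rf 19) (.oc 5 2 3 0
    7 1 (.rf 6)))) (.gap (.ru 15 (.ru 16 (.ru 17 (.lc 0 5 8 2 (.rf 6) (.lc 8 7 5 3 (.rf 19) (.oc
    5 2 3 8 7 1 (.rf 6))))))))) (.rf 1) (.cmp 5 (.gap (.rf 1)) (.rf 1) (.gap (.rf 1)))) (.rf 1)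
    (.cmp 3 (.cmp 2 (.gap (.rf 1)) (.rf 1) (.gap (.rf 1))) (.rf 1) (.gap (.rf 26))))))) (.cmp 5
    (.cmp 1 (.cmp 0 .mn (.rf 19) (.gap (.ru 15 (.lc 0 5 8 2 (.rf 6) (.rf 19))))) (.rf 1) (.gap
    (.rf 1))) (.rf 1) (.cmp 3 (.cmp 2 (.gap (.rf 1)) (.rf 1) (.gap (.rf 1))) (.rf 1) (.gap (.rf
    4)))) (.gap (.ru 14 (.ru 18 (.cmp 2 (.cmp 1 (.cmp 0 .mn (.rf 5) (.gap (.ru 15 (.ru 16 (.ru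
    17 (.lc 0 5 8 2 (.rf 6) (.lc 8 7 5 3 (.rf 19) (.oc 5 2 3 8 7 1 (.rf 6))))))))) (.rf 1) (.cmp
    5 (.gap (.rf 1)) (.rf 1) (.gap (.rf 1)))) (.rf 1) (.cmp 3 (.cmp 7 (.gap (.rf 1)) (.rf 1)
    (.gap (.rf 1))) (.rf 1) (.gap (.rf 4)))))))) (.cmp 5 (.cmp 1 (.cmp 0 .mn (.rf 1) (.gap (.rf
    1))) (.rf 1) (.gap (.rf 1))) (.rf 1) (.cmp 3 (.cmp 2 (.gap (.rf 1)) (.rf 1) (.gap (.rf 1)))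
    (.rf 1) (.gap (.rf 1)))) (.gap (.ru 14 (.ru 18 (.lc 5 3 2 7 (.rf 6) (.lc 0 5 1 7 (.k5 0 1 3
    5 2 (.rf 6)) (.oc 5 2 7 0 3 1 (.rf 6))))))))) (.gap (.ru 12 (.ru 13 t00_22))))

/-- Part of a certificate. -/
def t00_24 : Tr :=
    (.cmp 1 (.cmp 0 .mn (.rf 0) (.gap (.rf 2))) (.ru 9 (.cmp 2 (.cmp 1 (.cmp 0 .mn (.rf 6) (.gap
    (.ru 12 (.ru 13 (.lc 0 1 6 2 (.k5 0 2 3 6 1 (.rf 6)) (.rf 6)))))) (.rf 7) (.gap (.ru 12 (.ru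
    13 (.cmp 6 (.cmp 1 (.cmp 0 .mn (.ru 14 (.k5 0 2 3 1 6 (.rf 6))) (.gap (.ru 14 (.lc 0 1 7 6
    (.rf 6) (.k5 0 2 3 1 6 (.rf 6)))))) (.ru 18 (.eq 1 1)) (.gap (.ru 18 (.cmp 6 (.cmp 1 (.cmp 0
    .mn (.ru 20 (.k5 0 2 3 1 6 (.rf 6))) (.gap (.ru 17 (.ru 20 (.k5 0 2 3 1 6 (.rf 6)))))) (.rf
    1) (.cmp 7 (.gap (.rf 1)) (.rf 1) (.gap (.rf 1)))) (.rf 1) (.cmp 3 (.cmp 2 (.gap (.rf 1))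
    (.rf 1) (.gap (.rf 1))) (.rf 1) (.gap (.rf 26))))))) (.ru 18 (.rf 6)) (.cmp 3 (.cmp 2 (.gap
    (.ru 18 (.cmp 7 (.cmp 1 (.cmp 0 .mn (.ru 20 (.k5 0 2 3 1 6 (.rf 6))) (.gap (.ru 17 (.ru 20
    (.k5 0 2 3 1 6 (.rf 6)))))) (.rf 1) (.cmp 6 (.gap (.rf 1)) (.rf 1) (.gap (.rf 1)))) (.rf 1)
    (.cmp 3 (.cmp 2 (.gap (.rf 1)) (.rf 1) (.gap (.rf 1))) (.rf 1) (.gap (.rf 26)))))) (.cmp 6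
    (.cmp 1 (.cmp 0 .mn (.rf 19) (.gap (.ru 17 (.ru 20 (.k5 0 2 3 1 6 (.rf 6)))))) (.rf 1) (.gap
    (.rf 1))) (.rf 1) (.cmp 3 (.cmp 2 (.gap (.rf 1)) (.rf 1) (.gap (.rf 1))) (.rf 1) (.gap (.rf
    4)))) (.gap (.ru 14 (.ru 18 (.lc 0 2 6 7 (.k5 0 2 3 1 6 (.rf 6)) (.cp 1 0 2 3 7 6 (.rf
    6))))))) (.cmp 6 (.cmp 1 (.cmp 0 .mn (.rf 1) (.gap (.rf 1))) (.rf 1) (.gap (.rf 1))) (.rf 1)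
    (.cmp 3 (.cmp 2 (.gap (.rf 1)) (.rf 1) (.gap (.rf 1))) (.rf 1) (.gap (.rf 1)))) (.gap (.ru
    14 (.ru 18 (.lc 0 2 6 7 (.k5 0 2 3 1 6 (.rf 6)) (.cp 1 0 2 3 7 6 (.rf 6)))))))))))) (.rf 6)
    t00_21)) (.gap (.ru 8 (.ru 9 (.ru 11 (.cmp 5 (.cmp 1 (.cmp 0 .mn (.rf 6) (.gap (.ru 12 (.ru
    13 (.lc 0 5 6 2 (.k5 0 2 3 6 5 (.rf 6)) (.rf 6)))))) (.rf 6) (.gap (.ru 12 (.ru 13 (.lc 0 5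
    6 2 (.k5 0 2 3 6 5 (.rf 6)) (.rf 6)))))) (.rf 7) (.cmp 3 t00_23 (.rf 6) (.gap (.ru 12 (.ru
    13 (.lc 5 3 2 6 (.k5 5 2 3 0 1 (.cmp 2 (.cmp 1 (.cmp 0 .mn (.ru 14 (.k5 0 2 3 5 6 (.rf 6)))
    (.gap (.ru 14 (.lc 0 5 7 6 (.rf 6) (.k5 0 2 3 5 6 (.rf 6)))))) (.ru 18 (.eq 1 1)) (.cmp 5
    (.gap (.ru 14 (.lc 0 5 7 6 (.rf 6) (.k5 0 2 3 5 6 (.rf 6))))) (.ru 14 (.rf 6)) (.gap (.ru 14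
    (.ru 18 (.lc 5 2 7 6 (.cp 1 5 2 3 7 6 (.cp 5 0 1 2 3 6 (.rf 6))) (.rf 6))))))) (.cmp 2 (.cmp
    1 (.cmp 0 .mn (.rf 19) (.gap (.ru 17 (.ru 20 (.k5 0 2 3 5 6 (.rf 6)))))) (.rf 1) (.cmp 5
    (.gap (.rf 1)) (.rf 1) (.gap (.rf 1)))) (.rf 1) (.cmp 6 (.cmp 3 (.gap (.rf 1)) (.rf 1) (.gap
    (.rf 4))) (.rf 4) (.gap (.rf 4)))) (.cmp 6 (.cmp 3 (.gap (.ru 14 (.ru 18 (.lc 5 3 7 6 (.cp 1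
    5 2 3 7 6 (.cp 5 0 1 2 3 6 (.rf 6))) (.rf 6))))) (.cmp 2 (.cmp 1 (.cmp 0 .mn (.rf 1) (.gap
    (.rf 1))) (.rf 1) (.cmp 5 (.gap (.rf 1)) (.rf 1) (.gap (.rf 1)))) (.rf 1) (.cmp 6 (.cmp 3
    (.gap (.rf 1)) (.rf 1) (.gap (.rf 1))) (.rf 1) (.gap (.rf 1)))) (.gap (.ru 14 (.ru 18 (.lc 0
    5 1 7 (.cp 1 5 2 3 7 6 (.cp 5 0 1 2 3 6 (.rf 6))) (.cp 1 0 2 3 7 6 (.cp 5 0 1 2 3 6 (.rf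
    6)))))))) (.ru 18 (.k5 1 2 3 5 6 (.rf 6))) (.gap (.ru 14 (.ru 18 (.lc 0 5 1 7 (.cp 1 5 2 3 7
    6 (.cp 5 0 1 2 3 6 (.rf 6))) (.cp 1 0 2 3 7 6 (.cp 5 0 1 2 3 6 (.rf 6)))))))))) (.rf
    6))))))))))))

/-- Certificate. -/
def tree00 : Tr :=
    (.cmp 2 t00_7 (.ru 10 (.eq 2 2)) (.cmp 3 (.gap (.ru 10 (.cmp 2 (.cmp 1 (.cmp 0 .mn (.rf 0)
    (.gap (.ru 8 (.ru 9 (.ru 11 t00_13))))) (.ru 8 (.ru 9 (.cmp 2 (.cmp 1 (.cmp 0 .mn (.rf 6)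
    (.gap (.ru 12 (.ru 13 (.lc 0 1 6 2 (.lc 6 2 1 4 (.rf 6) (.pt 1 6 3 0 2 4 (.rf 6))) (.rf
    6)))))) (.rf 7) (.gap (.ru 12 (.ru 13 (.lc 1 4 6 3 (.rf 6) (.lc 0 2 6 4 (.pt 6 1 3 0 2 4
    (.rf 6)) (.cp 1 0 2 4 3 6 (.rf 6)))))))) (.rf 6) (.cmp 3 (.cmp 4 (.gap (.ru 12 (.ru 13 (.lc
    1 4 6 3 (.rf 6) t00_14)))) (.rf 6) (.gap (.ru 12 (.ru 13 (.lc 1 4 2 6 t00_15 (.rf 6))))))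
    (.rf 6) (.gap (.ru 12 (.ru 13 (.lc 1 4 2 6 (.lc 0 3 4 6 (.cp 1 0 2 4 3 6 (.rf 6)) (.oc 1 6 3
    0 2 4 (.rf 6))) (.rf 6))))))))) (.gap (.ru 8 (.ru 9 (.ru 11 t00_20))))) (.rf 0) (.cmp 3
    (.cmp 4 (.gap (.rf 0)) (.rf 0) (.gap (.rf 0))) (.rf 0) (.gap (.rf 0)))))) (.ru 10 (.cmp 2
    t00_24 (.rf 0) (.cmp 3 (.gap (.rf 0)) (.rf 0) (.gap (.rf 0))))) (.gap (.cmp 2 (.cmp 1 (.cmp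
    0 .mn (.rf 0) (.gap (.rf 2))) (.rf 3) (.gap (.rf 21))) (.rf 0) (.cmp 4 (.cmp 3 (.gap (.rf
    0)) (.rf 0) (.gap (.rf 0))) (.rf 0) (.gap (.rf 0)))))))

theorem chk00 : chk (rulesCom ++ (rulesZ1f ++ rulesZ00)) tree00 rk0 none none T0 = true := by
  decide +kernel

end Pool.Agent.Confl.Cert4
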