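import Pool.Agent.Confl.Main
import Pool.Agent.Confl.O.Step
import Pool.Agent.Confl.X.MainX
import Pool.Agent.Confl.T.SoundGen
import Pool.Agent.Confl.W.CompleteW

/-!
# Outerconfluent drawings in which a pattern is the only obstacle
-/

set_option autoImplicit false

open Filter Topology Set

namespace Pool.Agent.Confl

variable {V : Type} {G : SimpleGraph V} {x : V → ℝ}

theorem J_monoO {u g h : V} {s s' : ℝ} (hJ : J G x u g h s)
    (hs : 0 < (s' - s) * (x h - x g)) : J G x u g h s' := by
  refine ⟨hJ.1, ?_⟩
  intro a b hab halt hgb hah hpos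
  refine hJ.2 a b hab halt hgb hah ?_
  have e1 : (X x g h a b - s) * (x h - x g) =
      (X x g h a b - s') * (x h - x g) + (s' - s) * (x h - x g) := by ring
  rw [e1]
  exact add_pos hpos hs

theorem invariantO (hx : Function.Injective x) (hg : Generic x) (hH : HornO G x) (hlc : LC G x)
    (u : V) : Invariant G x u (fun g h s => J G x u g h s) where
  base := fun _ s hub => J_baseO hx hH hlc hub s
  mono := fun _ _ _ _ hI hs => J_monoO hI hs
  step := fun _ _ _ _ _ hgh hI hab halt hgb hah hs =>
    J_stepO hx hg hH hlc hgh hI hab halt hgb hah hs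
  fin := fun _ _ _ hI => hI.1

open Cert4 in
theorem HornO.congr {G : SimpleGraph V} {x y : V → ℝ} (h : HornO G x)
    (hxy : ∀ u v, x u < x v ↔ y u < y v) : HornO G y where
  k5 := h.k5
  pt := fun p q a b c d h1 ho => h.pt p q a b c d h1 (by
    have hA : ∀ p q r s, Alt y p q r s ↔ Alt x p q r s := by
      intro p q r s
      unfold Alt Btw
      simp only [hxy]
    unfold C6 at ho ⊢
    simpa only [hA] using ho)
  oc := h.oc
  cp := h.cp

theorem outerconfluentAt_of_lcO [Finite V] (G : SimpleGraph V) (x : V → ℝ)
    (hx : Function.Injective x) (h3 : HornO G x) (h : LC G x) : OuterconfluentAt G x := by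
  obtain ⟨y, hxy, hg⟩ := exists_generic x hx
  have hy : Function.Injective y := by
    intro u v huv
    by_contra hne
    rcases lt_or_gt_of_ne (fun h => hne (hx h) : x u ≠ x v) with h | h
    · exact absurd ((hxy u v).1 h) (by rw [huv]; exact lt_irrefl _)
    · exact absurd ((hxy v u).1 h) (by rw [huv]; exact lt_irrefl _)
  have hlc : LC G y := by
    intro a b c d hab hbc hcd hac hbd
    exact h a b c d ((hxy _ _).2 hab) ((hxy _ _).2 hbc) ((hxy _ _).2 hcd) hac hbd
  obtain ⟨W, hW⟩ := chord_weak G y hy hg
  obtain ⟨D, hD⟩ := upgrade W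
  have hDs : D.toSkel = chordSkel G y := hD.trans hW
  have hrep : (chordSkel G y).Represents G := by
    intro u v huv
    exact ⟨fun h => chord_completeW G y hy h, fun ⟨p, hp⟩ =>
      (chord_sound_gen G y hy hlc (invariantO hy hg (h3.congr hxy) hlc u) hp).resolve_left huv⟩
  refine ⟨D, represents_eq hDs hrep, fun u v => ?_⟩
  have hp : ∀ w, (D.pt (Sum.inl w)).re = y w := by
    intro w
    have key : ∀ S : Skel V, S = chordSkel G y → (S.pt (Sum.inl w)).re = y w := by
      rintro S rfl
      simp [chordSkel, cpt]
    exact key D.toSkel hDs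
  rw [hp, hp]
  exact hxy u v

/-- Without the pattern `P`, for graphs with no induced `K₅` minus an edge, octahedron, complement
of two disjoint paths on three vertices: the orders of the outerconfluent drawings are the orders
with the local property and without the pattern `X`. -/
theorem mainO [Finite V] (G : SimpleGraph V) (x : V → ℝ) (hx : Function.Injective x)
    (hA : NoK5e G) (hB : OctFree G) (hC : CoFree G) (hP : ∀ v, ¬ PatP G x v) :
    OuterconfluentAt G x ↔ LC G x ∧ ∀ v, ¬ PatX G x v :=
  ⟨fun h => ⟨lc_of_outerconfluentAt _ _ hx h, no_patX G x hx h⟩,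
    fun h => outerconfluentAt_of_lcO G x hx (hornO hx hA hB hC hP h.2) h.1⟩

end Pool.Agent.Confl
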