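import Pool.Agent.Confl.O.Rules

/-!
# A certificate
-/

set_option autoImplicit false

namespace Pool.Agent.Confl.Cert4

/-- Certificate. -/
def treeBase : Tr :=
    (.cmp 2 (.cmp 1 (.cmp 0 .mn (.cmp 2 (.cmp 1 (.cmp 0 .mn (.rf 0) (.gap (.rf 0))) (.rf 0)
    (.gap (.rf 0))) (.rf 0) (.cmp 3 (.gap (.rf 0)) (.rf 0) (.gap (.rf 0)))) (.gap (.ru 7 (.cmp 1
    (.cmp 4 (.cmp 0 .mn (.rf 0) (.gap (.rf 0))) (.rf 0) (.gap (.rf 0))) (.rf 0) (.cmp 3 (.cmp 2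
    (.gap (.rf 0)) (.rf 0) (.gap (.ru 5 (.ru 6 (.lc 0 5 1 3 (.lc 0 1 4 5 (.rf 3) (.lc 4 2 1 3
    (.cp 0 3 1 2 5 4 (.cp 1 2 0 4 3 5 (.rf 3))) (.pt 0 4 2 1 3 5 (.k5 0 4 3 1 5 (.rf 3))))) (.rf
    3)))))) (.rf 1) (.gap (.rf 1))))))) (.cmp 2 (.cmp 1 (.cmp 0 .mn (.rf 0) (.gap (.rf 0))) (.rf
    0) (.gap (.rf 0))) (.rf 0) (.cmp 3 (.gap (.ru 5 (.rf 3))) (.rf 3) (.gap (.rf 2)))) (.gap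
    (.ru 7 (.cmp 4 (.cmp 1 (.cmp 0 .mn (.rf 0) (.gap (.rf 0))) (.rf 0) (.gap (.rf 0))) (.rf 0)
    (.cmp 3 (.cmp 2 (.gap (.rf 0)) (.rf 0) (.gap (.ru 5 (.ru 6 (.lc 0 5 1 3 (.lc 1 2 4 5 (.pt 5
    1 3 0 2 4 (.rf 3)) (.rf 3)) (.rf 3)))))) (.rf 3) (.gap (.ru 5 (.ru 6 (.lc 1 2 4 5 (.lc 1 3 4
    5 (.lc 0 3 4 5 (.cp 0 5 4 2 3 1 (.cp 1 0 4 2 3 5 (.rf 3))) (.pt 3 2 1 4 5 0 (.k5 4 2 3 1 5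
    (.rf 3)))) (.rf 3)) (.rf 3)))))))))) (.ru 7 (.eq 2 2)) (.cmp 3 (.gap (.ru 7 (.cmp 2 (.cmp 1
    (.cmp 0 .mn (.rf 0) (.gap (.ru 5 (.ru 6 (.lc 5 4 1 3 (.rf 3) (.lc 0 2 5 3 (.lc 0 2 1 4 (.cp
    0 3 1 2 5 4 (.cp 1 2 0 4 3 5 (.rf 3))) (.pt 4 3 5 0 2 1 (.k5 0 4 3 5 2 (.k5 2 4 3 5 1 (.rf
    3))))) (.lc 0 2 1 4 (.pt 1 5 3 0 2 4 (.rf 3)) (.cp 5 0 2 4 3 1 (.rf 3))))))))) (.rf 4) (.gap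
    (.ru 5 (.ru 6 (.lc 0 5 1 2 (.lc 0 5 1 3 (.lc 1 2 5 4 (.rf 3) (.pt 5 1 3 0 2 4 (.rf 3))) (.rf
    3)) (.rf 3)))))) (.rf 0) (.cmp 3 (.cmp 4 (.gap (.rf 0)) (.rf 0) (.gap (.rf 0))) (.rf 0)
    (.gap (.rf 0)))))) (.ru 7 (.cmp 2 (.cmp 1 (.cmp 0 .mn (.rf 0) (.gap (.rf 1))) (.rf 4) (.gap
    (.ru 5 (.ru 6 (.lc 0 5 1 2 (.k5 0 2 3 1 5 (.rf 3)) (.rf 3)))))) (.rf 0) (.cmp 3 (.gap (.rf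
    0)) (.rf 0) (.gap (.rf 0))))) (.gap (.ru 7 (.cmp 2 (.cmp 1 (.cmp 0 .mn (.rf 0) (.gap (.rf
    1))) (.rf 2) (.gap (.ru 5 (.ru 6 (.lc 0 5 1 2 (.lc 0 5 1 3 (.lc 1 2 5 4 (.rf 3) (.lc 0 3 1 4
    (.oc 1 5 3 0 2 4 (.rf 3)) (.k5 0 2 4 1 5 (.rf 3)))) (.rf 3)) (.rf 3)))))) (.rf 0) (.cmp 4
    (.cmp 3 (.gap (.rf 0)) (.rf 0) (.gap (.rf 0))) (.rf 0) (.gap (.rf 0))))))))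

theorem chkBase : chk rulesBase treeBase rk0 none none T0 = true := by
  decide +kernel

end Pool.Agent.Confl.Cert4
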